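import Pool.Agent.X307.MT.Defs4

/-!
# Vanishing of odd cohomology on the heart, and motives over finite fields
-/

set_option autoImplicit false

open CategoryTheory Limits MonoidalCategory Pretriangulated Triangulated

namespace Pool.Agent.X307.MT

open Pool.Agent.Y116.MT

universe v u w

section

variable {C : Type u} [Category.{v} C] [Preadditive C] [HasZeroObject C] [HasShift C ℤ]
  [∀ n : ℤ, (shiftFunctor C n).Additive] [Pretriangulated C] [MonoidalCategory C]
  [SymmetricCategory C] [TensorTriangulated C]
  {Λ : Type*} {E : Λ → Type w} [∀ l, Field (E l)] (R : ∀ l, Realisation C (E l))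

/-- For every `l`, the cohomology `H_l^i(M)` of the objects `M` of the heart of `t` vanishes for
all odd `i`. -/
def EvenHeart (t : TStructure C) : Prop :=
  ∀ (l : Λ) (M : C), t.le 0 M → t.ge 0 M → ∀ i : ℤ, Odd i → IsZero ((R l).H.obj (M⟦i⟧))

/-- The formal properties of motives over a finite field: the category is generated by a class of
Chow motives (`IsChowClass`) which satisfies the hard Lefschetz theorem (`HardLefschetz`), and
there is a natural endomorphism `φ` of the identity functor (Frobenius) with `FrobeniusWeights`. -/
def FiniteFieldType [RightRigidCategory C] [∀ l, CharZero (E l)] : Prop :=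
  ∃ (Chow : ObjectProperty C) (T : C) (φ : 𝟭 C ⟶ 𝟭 C), IsChowClass Chow ∧
    HardLefschetz Chow T R ∧ FrobeniusWeights Chow R φ ∧ ∀ X : C, Generated Chow X

end

end Pool.Agent.X307.MT
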