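import Pool.Agent.X307.MT.Defs2

/-!
# The standard conjectures, for the realisations of a tensor triangulated category
-/

set_option autoImplicit false

open CategoryTheory Limits MonoidalCategory Pretriangulated Triangulated

namespace Pool.Agent.X307.MT

open Pool.Agent.Y116.MT

universe v u w

section

variable {C : Type u} [Category.{v} C] [Preadditive C] [HasZeroObject C] [HasShift C ℤ]
  [∀ n : ℤ, (shiftFunctor C n).Additive] [Pretriangulated C] [MonoidalCategory C]
  [SymmetricCategory C] [TensorTriangulated C]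
  {Λ : Type*} {E : Λ → Type w} [∀ l, Field (E l)] (R : ∀ l, Realisation C (E l))

/-- Standard conjecture D: for cycles `s : 𝟙 ⟶ P` on Chow motives, homological equivalence, for
every single `l`, is numerical equivalence. -/
def ConjD (Chow : ObjectProperty C) : Prop :=
  ∀ (P : C), Chow P → ∀ (s : 𝟙_ C ⟶ P) (l : Λ),
    (R l).H.map s = 0 ↔ ∀ r : P ⟶ 𝟙_ C, s ≫ r = 0

/-- The map `L : Q ⟶ Q ⊗ T ^ k` induces isomorphisms `H_l^j(Q) ≅ H_l^j(Q ⊗ T ^ k)` for all `l`. -/
def IsLefschetz (T Q : C) (k : ℕ) (j : ℤ) (L : Q ⟶ twist T Q k) : Prop :=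
  ∀ l, IsIso ((R l).H.map (L⟦j⟧'))

/-- Standard conjecture B (Lefschetz type): if `Q` satisfies hard Lefschetz (with center `e`),
the inverse of each Lefschetz isomorphism `H_l^(e-k)(Q) ≅ H_l^(e-k)(Q ⊗ T ^ k)` is induced by one
morphism `M : Q ⊗ T ^ k ⟶ Q`, for all `l`. -/
def ConjB (T : C) : Prop :=
  ∀ (Q : C) (e : ℤ), (∀ k : ℕ, ∃ L : Q ⟶ twist T Q k, IsLefschetz R T Q k (e - k) L) →
    ∀ (k : ℕ) (L : Q ⟶ twist T Q k), IsLefschetz R T Q k (e - k) L →
      ∃ M : twist T Q k ⟶ Q, ∀ l,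
        (R l).H.map (L⟦e - k⟧') ≫ (R l).H.map (M⟦e - k⟧') = 𝟙 _ ∧
        (R l).H.map (M⟦e - k⟧') ≫ (R l).H.map (L⟦e - k⟧') = 𝟙 _

/-- Standard conjecture C (Künneth type): the Künneth projectors of Chow motives are algebraic. -/
def ConjC (Chow : ObjectProperty C) : Prop :=
  ∀ (P : C), Chow P → ∀ n : ℤ, ∃ p : P ⟶ P, ∀ l, (R l).H.map (p⟦n⟧') = 𝟙 _ ∧
    ∀ i : ℤ, i ≠ n → (R l).H.map (p⟦i⟧') = 0

/-- Every endomorphism of an object of `C` which acts as zero on all cohomology groups for one `l`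
is nilpotent. -/
def HomTrivialNilpotent : Prop :=
  ∀ (X : C) (a : End X) (l : Λ), (∀ i : ℤ, (R l).H.map ((show X ⟶ X from a)⟦i⟧') = 0) →
    IsNilpotent a

/-- Every natural endomorphism of the identity functor (for instance Frobenius, for motives over a
finite field) acts semisimply on all cohomology groups of Chow motives. -/
def NaturalSemisimple (Chow : ObjectProperty C) : Prop :=
  ∀ (φ : 𝟭 C ⟶ 𝟭 C) (P : C), Chow P → ∀ (l : Λ) (n : ℤ),
    Module.End.IsSemisimple ((R l).H.map ((show P ⟶ P from φ.app P)⟦n⟧')).hom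

end

end Pool.Agent.X307.MT
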