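import Pool.Agent.X307.MT.Crit

/-!
# Twists by an invertible object
-/

set_option autoImplicit false
set_option linter.unusedSectionVars false
set_option linter.unusedSimpArgs false
set_option backward.isDefEq.respectTransparency false
set_option backward.defeqAttrib.useBackward true

open CategoryTheory Limits MonoidalCategory Pretriangulated Triangulated

namespace Pool.Agent.X307.MT

open Pool.Agent.Y116.MT

universe v u w

section Mon

variable {C : Type u} [Category.{v} C] [MonoidalCategory C]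

/-- The map of twists induced by a map. -/
def twMap (T : C) {X Y : C} (f : X ⟶ Y) : ∀ k : ℕ, twist T X k ⟶ twist T Y k
  | 0 => f
  | k + 1 => twMap T f k ▷ T

@[simp] lemma twMap_zero (T : C) {X Y : C} (f : X ⟶ Y) : twMap T f 0 = f := rfl

@[simp] lemma twMap_succ (T : C) {X Y : C} (f : X ⟶ Y) (k : ℕ) :
    twMap T f (k + 1) = twMap T f k ▷ T := rfl

lemma twMap_id (T X : C) (k : ℕ) : twMap T (𝟙 X) k = 𝟙 (twist T X k) := by
  induction k with
  | zero => rfl
  | succ k ih => rw [twMap_succ, ih, id_whiskerRight]; rfl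

lemma twMap_comp (T : C) {X Y Z : C} (f : X ⟶ Y) (g : Y ⟶ Z) (k : ℕ) :
    twMap T (f ≫ g) k = twMap T f k ≫ twMap T g k := by
  induction k with
  | zero => rfl
  | succ k ih => rw [twMap_succ, ih, comp_whiskerRight]; rfl

variable [BraidedCategory C]

lemma tr_nat1 {T T' : C} (e : T ⊗ T' ≅ 𝟙_ C) {X Y : C} (f : X ⟶ Y) :
    f ≫ (ρ_ Y).inv ≫ Y ◁ e.inv ≫ (α_ Y T T').inv =
      ((ρ_ X).inv ≫ X ◁ e.inv ≫ (α_ X T T').inv) ≫ (f ▷ T) ▷ T' := by
  simp only [Category.assoc]
  rw [← associator_inv_naturality_left, whisker_exchange_assoc,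
    ← MonoidalCategory.rightUnitor_inv_naturality_assoc]

lemma tr_nat2 {T T' : C} (e : T' ⊗ T ≅ 𝟙_ C) {X Y : C} (f : X ⟶ Y) :
    (f ▷ T') ▷ T ≫ (α_ Y T' T).hom ≫ Y ◁ e.hom ≫ (ρ_ Y).hom =
      ((α_ X T' T).hom ≫ X ◁ e.hom ≫ (ρ_ X).hom) ≫ f := by
  simp only [Category.assoc]
  rw [associator_naturality_left_assoc, ← whisker_exchange_assoc,
    MonoidalCategory.rightUnitor_naturality]

lemma tensorRight_equiv {T T' : C} (e : T ⊗ T' ≅ 𝟙_ C) :
    (tensorRight T).IsEquivalence := by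
  have a1 : 𝟭 C ≅ tensorRight T ⋙ tensorRight T' :=
    NatIso.ofComponents (fun X => (ρ_ X).symm ≪≫ whiskerLeftIso X e.symm ≪≫ (α_ X T T').symm)
      (fun {X Y} f => tr_nat1 e f)
  have a2 : tensorRight T' ⋙ tensorRight T ≅ 𝟭 C :=
    NatIso.ofComponents (fun X => α_ X T' T ≪≫ whiskerLeftIso X (β_ T' T ≪≫ e) ≪≫ ρ_ X)
      (fun {X Y} f => tr_nat2 (β_ T' T ≪≫ e) f)
  exact (CategoryTheory.Equivalence.mk (tensorRight T) (tensorRight T') a1 a2).isEquivalence_functor

lemma twMap_injective {T T' : C} (e : T ⊗ T' ≅ 𝟙_ C) {X Y : C} (k : ℕ) {f g : X ⟶ Y}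
    (h : twMap T f k = twMap T g k) : f = g := by
  induction k with
  | zero => exact h
  | succ k ih =>
    have := tensorRight_equiv e
    exact ih ((tensorRight T).map_injective h)

lemma twMap_surjective {T T' : C} (e : T ⊗ T' ≅ 𝟙_ C) {X Y : C} (k : ℕ)
    (g : twist T X k ⟶ twist T Y k) : ∃ f : X ⟶ Y, twMap T f k = g := by
  induction k with
  | zero => exact ⟨g, rfl⟩
  | succ k ih =>
    have := tensorRight_equiv e
    obtain ⟨g', hg'⟩ := (tensorRight T).map_surjective g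
    obtain ⟨f, hf⟩ := ih g'
    exact ⟨f, by rw [twMap_succ, hf]; exact hg'⟩

end Mon

section

variable {C : Type u} [Category.{v} C] [Preadditive C] [HasZeroObject C] [HasShift C ℤ]
  [∀ n : ℤ, (shiftFunctor C n).Additive] [Pretriangulated C] [MonoidalCategory C]
  [SymmetricCategory C] [TensorTriangulated C]

/-- A distinguished triangle, tensored with an object on the right. -/
lemma tensor_distR (W : C) {X Y Z : C} {f : X ⟶ Y} {g : Y ⟶ Z} {h : Z ⟶ X⟦(1 : ℤ)⟧}
    (hT : Triangle.mk f g h ∈ distTriang C) :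
    ∃ h', Triangle.mk (f ▷ W) (g ▷ W) h' ∈ distTriang C := by
  refine ⟨(β_ Z W).hom ≫ (W ◁ h ≫ (rShift W X 1).hom) ≫ ((β_ X W).inv)⟦(1 : ℤ)⟧', ?_⟩
  refine isomorphic_distinguished _ (tensor_dist W hT) _ ?_
  refine Triangle.isoMk _ _ (β_ X W) (β_ Y W) (β_ Z W) ?_ ?_ ?_
  · exact BraidedCategory.braiding_naturality_left f W
  · exact BraidedCategory.braiding_naturality_left g W
  · simp only [Triangle.mk_mor₃, Category.assoc, Triangle.mk_obj₁]
    rw [← Functor.map_comp, Iso.inv_hom_id, CategoryTheory.Functor.map_id, Category.comp_id]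

/-- The twist of a distinguished triangle. -/
lemma tw_dist (T : C) {X Y Z : C} {f : X ⟶ Y} {g : Y ⟶ Z} {h : Z ⟶ X⟦(1 : ℤ)⟧}
    (hT : Triangle.mk f g h ∈ distTriang C) (k : ℕ) :
    ∃ h', Triangle.mk (twMap T f k) (twMap T g k) h' ∈ distTriang C := by
  induction k with
  | zero => exact ⟨h, hT⟩
  | succ k ih =>
    obtain ⟨h', hT'⟩ := ih
    exact tensor_distR T hT'

lemma tw_LE {t : TStructure C} (ht : TensorCompat t) {T : C} (hT : t.IsLE T (-2)) {X : C} {b : ℤ}
    (hX : t.IsLE X b) (k : ℕ) : t.IsLE (twist T X k) (b - 2 * k) := by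
  induction k with
  | zero =>
    have e : b - 2 * ((0 : ℕ) : ℤ) = b := by simp
    rw [e]
    exact hX
  | succ k ih =>
    have h := ht.isLE ih hT
    have e : b - 2 * (k : ℤ) + -2 = b - 2 * ((k + 1 : ℕ) : ℤ) := by push_cast; ring
    rw [e] at h
    exact h

lemma tw_GE {t : TStructure C} (ht : TensorCompat t) {T : C} (hT : t.IsGE T (-2)) {X : C} {b : ℤ}
    (hX : t.IsGE X b) (k : ℕ) : t.IsGE (twist T X k) (b - 2 * k) := by
  induction k with
  | zero =>
    have e : b - 2 * ((0 : ℕ) : ℤ) = b := by simp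
    rw [e]
    exact hX
  | succ k ih =>
    have h := ht.isGE ih hT
    have e : b - 2 * (k : ℤ) + -2 = b - 2 * ((k + 1 : ℕ) : ℤ) := by push_cast; ring
    rw [e] at h
    exact h

end

end Pool.Agent.X307.MT
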