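import Pool.Agent.X307.MT.Defs

/-!
# Chow motives in a tensor triangulated category
-/

set_option autoImplicit false

open CategoryTheory Limits MonoidalCategory Pretriangulated Triangulated

namespace Pool.Agent.X307.MT

open Pool.Agent.Y116.MT

universe v u w

section

variable {C : Type u} [Category.{v} C] [Preadditive C] [HasZeroObject C] [HasShift C ℤ]
  [∀ n : ℤ, (shiftFunctor C n).Additive] [Pretriangulated C] [MonoidalCategory C]
  [SymmetricCategory C] [TensorTriangulated C] [RightRigidCategory C]

/-- The formal properties of the full subcategory of Chow motives in the category of Voevodsky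
motives: it contains the unit, is closed under tensor products, duals and direct summands, and
there are no morphisms from a Chow motive to a positive shift of a Chow motive. -/
structure IsChowClass (Chow : ObjectProperty C) : Prop where
  unit : Chow (𝟙_ C)
  tensor (X Y : C) : Chow X → Chow Y → Chow (X ⊗ Y)
  dual (X : C) : Chow X → Chow Xᘁ
  retract (X Y : C) (i : X ⟶ Y) (r : Y ⟶ X) : i ≫ r = 𝟙 X → Chow Y → Chow X
  vanish (X Y : C) : Chow X → Chow Y → ∀ m : ℤ, 0 < m → ∀ f : X ⟶ Y⟦m⟧, f = 0

end

end Pool.Agent.X307.MT
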