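import Pool.Agent.X307.MT.Dec
import Pool.Agent.X307.MT.Defs2
import Pool.Agent.Y116.MT.Trace

/-!
# Standard conjectures from a motivic t-structure
-/

set_option autoImplicit false
set_option linter.unusedSectionVars false
set_option linter.unusedSimpArgs false
set_option backward.isDefEq.respectTransparency false
set_option backward.defeqAttrib.useBackward true

open CategoryTheory Limits MonoidalCategory Pretriangulated Triangulated ZeroObject

namespace Pool.Agent.X307.MT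

open Pool.Agent.Y116.MT

universe v u w

section

variable {C : Type u} [Category.{v} C] [Preadditive C] [HasZeroObject C] [HasShift C ℤ]
  [∀ n : ℤ, (shiftFunctor C n).Additive] [Pretriangulated C] [MonoidalCategory C]
  [SymmetricCategory C] [TensorTriangulated C]
  {Λ : Type*} {E : Λ → Type w} [∀ l, Field (E l)] {R : ∀ l, Realisation C (E l)}
  {t : TStructure C}
  [MonoidalPreadditive C] [RightRigidCategory C] [IsTriangulated C]
  (hm : IsMotivic t R) (hid : ∀ e : 𝟙_ C ⟶ 𝟙_ C, e ≫ e = e → e = 0 ∨ e = 𝟙 _)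

include hm hid

lemma deg_LE (l₀ : Λ) {X : C} {n : ℤ} (h : (R l₀).Deg X n) : t.IsLE X n :=
  ⟨(le_iff hm hid l₀ n X).2 fun i hi => h i (by omega)⟩

lemma deg_GE (l₀ : Λ) {X : C} {n : ℤ} (h : (R l₀).Deg X n) : t.IsGE X n :=
  ⟨(ge_iff hm hid l₀ n X).2 fun i hi => h i (by omega)⟩

/-- Objects with hard Lefschetz isomorphisms decompose. -/
theorem hl_pieces [Nonempty Λ] {Chow : ObjectProperty C} {T : C} (hL : HardLefschetz Chow T R)
    {Q : C} (e : ℤ)
    (hQ : ∀ k : ℕ, ∃ L : Q ⟶ twist T Q k, ∀ l, IsIso ((R l).H.map (L⟦e - k⟧'))) (n : ℤ) :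
    Piece t R Q n := by
  have l₀ : Λ := Classical.arbitrary Λ
  obtain ⟨T', ⟨eT⟩⟩ := hL.invertible
  have hT1 := deg_LE hm hid l₀ (hL.degree l₀)
  have hT2 := deg_GE hm hid l₀ (hL.degree l₀)
  obtain ⟨N, h1, h2⟩ := bdd hm hid l₀ Q
  have h1' : t.IsLE Q N := ⟨h1⟩
  have h2' : t.IsGE Q (-N) := ⟨h2⟩
  exact pieces hm hid eT hT1 hT2 e (N + e.natAbs) Q
    (t.isGE_of_ge Q (e - (N + e.natAbs : ℕ)) (-N) (by omega))
    (t.isLE_of_le Q N (e + (N + e.natAbs : ℕ)) (by omega)) hQ n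

/-- Every Chow motive has the pieces. -/
theorem chow_pieces [Nonempty Λ] {Chow : ObjectProperty C} {T : C} (hL : HardLefschetz Chow T R)
    {P : C} (hP : Chow P) : ∃ (Q : C) (i : P ⟶ Q) (r : Q ⟶ P), i ≫ r = 𝟙 P ∧ Chow Q ∧
      ∀ n : ℤ, Piece t R Q n := by
  obtain ⟨Q, i, r, e, hir, hQ, hk⟩ := hL.lefschetz P hP
  exact ⟨Q, i, r, hir, hQ, fun n => hl_pieces hm hid hL e hk n⟩

/-- **Standard conjecture D.** -/
theorem conjD [Nonempty Λ] [Linear ℚ C] {Chow : ObjectProperty C} (hC : IsChowClass Chow) {T : C}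
    (hL : HardLefschetz Chow T R) {P : C} (hP : Chow P) (s : 𝟙_ C ⟶ P) (l : Λ)
    (hs : (R l).H.map s ≠ 0) : ∃ r : P ⟶ 𝟙_ C, s ≫ r ≠ 0 := by
  obtain ⟨Q, i, r, hir, hQ, hpc⟩ := chow_pieces hm hid hL hP
  obtain ⟨M, a, b, hM1, hM2, hab, hb⟩ := hpc 0
  have hMC : Chow M := hC.retract M Q a b hab hQ
  have h1 : IsIso ((R l).H.map b) := by
    have h2 := hb l
    have e1 : b = (shiftFunctorZero C ℤ).inv.app _ ≫ b⟦(0 : ℤ)⟧' ≫
        (shiftFunctorZero C ℤ).hom.app _ := by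
      rw [(shiftFunctorZero C ℤ).hom.naturality]
      simp
    rw [e1, Functor.map_comp, Functor.map_comp]
    infer_instance
  have h3 : s ≫ i ≫ b ≠ 0 := by
    intro h0
    apply hs
    have h4 : (R l).H.map (s ≫ i) = 0 := by
      rw [← cancel_mono ((R l).H.map b), ← Functor.map_comp, Category.assoc, h0,
        Functor.map_zero, zero_comp]
    have h5 : s = (s ≫ i) ≫ r := by rw [Category.assoc, hir, Category.comp_id]
    rw [h5, Functor.map_comp, h4, zero_comp]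
  obtain ⟨r', hr'⟩ := heart_pairing (compat hm) (texact hm l) (unitHrt hm) hid (Q := M)
    ⟨hM1, hM2⟩ Chow hC.unit (fun X hX => hC.tensor X M hX hMC)
    (fun X hX m hm' f => hC.vanish X _ hX hC.unit m hm' f) (s ≫ i ≫ b) h3
  exact ⟨i ≫ b ≫ r', by simpa only [Category.assoc] using hr'⟩

/-- Numerically nontrivial cycles are homologically nontrivial. -/
theorem conjD' {P : C} (s : 𝟙_ C ⟶ P) (r : P ⟶ 𝟙_ C) (hr : s ≫ r ≠ 0) (l : Λ) :
    (R l).H.map s ≠ 0 := by
  intro h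
  apply hr
  apply faithfulHrt hm hid l (unitHrt hm) (unitHrt hm)
  rw [Functor.map_comp, h, zero_comp]

end

end Pool.Agent.X307.MT
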