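import Pool.Agent.X307.MT.Asym
import Pool.Agent.X307.MT.DConj

/-!
# The realisations of objects of the heart live in even degrees
-/

set_option autoImplicit false
set_option linter.unusedSectionVars false
set_option linter.unusedSimpArgs false
set_option backward.isDefEq.respectTransparency false
set_option backward.defeqAttrib.useBackward true

open CategoryTheory Limits MonoidalCategory Pretriangulated Triangulated TensorProduct

namespace Pool.Agent.X307.MT

open Pool.Agent.Y116.MT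

universe v u w v' u'

open Functor.LaxMonoidal

section Lax

variable {C : Type u} [Category.{v} C] [MonoidalCategory C] [SymmetricCategory C]
  {D : Type u'} [Category.{v'} D] [MonoidalCategory D] [SymmetricCategory D]
  (H : C ⥤ D) [H.LaxBraided] (X Z : C)
  [Preadditive C] [Preadditive D] [MonoidalPreadditive D] [H.Additive]

lemma asym_lax (ε : ℤ) (n : ℕ) :
    asym ε (H.obj X) (H.obj Z) n ≫ kap H X Z n = kap H X Z n ≫ H.map (asym ε X Z n) := by
  induction n with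
  | zero => simp [asym, kap]
  | succ n ih =>
    simp only [asym, Preadditive.sum_comp, Functor.map_sum, Preadditive.comp_sum]
    refine Finset.sum_congr rfl (fun i _ => ?_)
    rw [Functor.map_zsmul, Preadditive.zsmul_comp, Preadditive.comp_zsmul, Functor.map_comp,
      ← Category.assoc (kap H X Z (n + 1)), ← mv_lax]
    have h3 : (asym ε (H.obj X) (H.obj Z) n ▷ H.obj Z) ≫ kap H X Z (n + 1) =
          kap H X Z (n + 1) ≫ H.map (asym ε X Z n ▷ Z) := by
        have h4 : kap H X Z (n + 1) = (kap H X Z n ▷ H.obj Z) ≫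
            μ H (pw X Z n) Z := rfl
        rw [h4, ← comp_whiskerRight_assoc, ih, comp_whiskerRight_assoc, μ_natural_left,
          Category.assoc]
    rw [Category.assoc, Category.assoc, h3]

end Lax

section Vec

variable {E : Type w} [Field E] (X V : ModuleCat.{w} E)

lemma mono_whisker {M N : ModuleCat.{w} E} (f : M ⟶ N) [Mono f] (W : ModuleCat.{w} E) :
    Mono (f ▷ W) := by
  have h1 : Function.Injective f.hom := (ModuleCat.mono_iff_injective f).1 inferInstance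
  obtain ⟨g, hg⟩ := LinearMap.exists_leftInverse_of_injective f.hom (LinearMap.ker_eq_bot.2 h1)
  have h2 : f ≫ ModuleCat.ofHom g = 𝟙 M := by
    ext x
    exact LinearMap.congr_fun hg x
  exact SplitMono.mono ⟨ModuleCat.ofHom g ▷ W, by rw [← comp_whiskerRight, h2, id_whiskerRight]⟩

lemma asym_ten (x : X) (v : V) (n : ℕ) :
    (asym 1 X V n) (ten X V x n (fun _ => v)) = (n.factorial : ℤ) • ten X V x n (fun _ => v) := by
  induction n with
  | zero =>
    change (𝟙 X : X ⟶ X) x = _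
    simp [ten]
  | succ n ih =>
    have h1 : (asym 1 X V (n + 1)) (ten X V x (n + 1) (fun _ => v)) =
      ∑ i : Fin (n + 1), ((1 : ℤ) ^ (n + i.val)) •
        ((asym 1 X V n ▷ V) ((mv X V n i) (ten X V x (n + 1) (fun _ => v)))) := by
      have h3 := ModuleCat.hom_sum (fun i : Fin (n + 1) =>
        ((1 : ℤ) ^ (n + i.val)) • (mv X V n i ≫ (asym 1 X V n ▷ V))) Finset.univ
      exact (LinearMap.congr_fun h3 _).trans (by rw [LinearMap.sum_apply]; rfl)
    rw [h1]
    have h4 : ∀ i : Fin (n + 1), ((1 : ℤ) ^ (n + i.val)) •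
        ((asym 1 X V n ▷ V) ((mv X V n i) (ten X V x (n + 1) (fun _ => v)))) =
        (n.factorial : ℤ) • ten X V x (n + 1) (fun _ => v) := fun i => by
      rw [mv_apply, one_pow, one_smul]
      have h2 : (asym 1 X V n ▷ V) ((ten X V x n (fun _ => v)) ⊗ₜ[E] v) =
        (((asym 1 X V n) (ten X V x n (fun _ => v))) ⊗ₜ[E] v :
          (pw X V n ⊗ V : ModuleCat.{w} E)) := rfl
      have h5 : i.removeNth (fun _ : Fin (n + 1) => v) = fun _ => v := rfl
      rw [h5, h2, ih]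
      rfl
    rw [Finset.sum_congr rfl (fun i _ => h4 i), Finset.sum_const, Finset.card_univ,
      Fintype.card_fin, ← natCast_zsmul, smul_smul, Nat.factorial_succ]
    push_cast
    rfl

lemma ten_ne_zero {x : X} {v : V} (hx : x ≠ 0) (hv : v ≠ 0) (n : ℕ) :
    ten X V x n (fun _ => v) ≠ 0 := by
  induction n with
  | zero => exact hx
  | succ n ih =>
    intro h
    obtain ⟨f, hf⟩ := Module.Projective.exists_dual_eq_one E hv
    apply ih
    have h1 : (TensorProduct.rid E (pw X V n : ModuleCat.{w} E))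
        ((LinearMap.lTensor (pw X V n : ModuleCat.{w} E) f)
          ((ten X V x n (fun _ => v)) ⊗ₜ[E] v)) = ten X V x n (fun _ => v) := by
      rw [LinearMap.lTensor_tmul, hf, TensorProduct.rid_tmul, one_smul]
    have h2 : ((ten X V x n (fun _ => v)) ⊗ₜ[E] v : (pw X V n : ModuleCat.{w} E) ⊗[E] V) = 0 := h
    rw [h2, map_zero, map_zero] at h1
    exact h1.symm

end Vec

section

variable {C : Type u} [Category.{v} C] [Preadditive C] [HasZeroObject C] [HasShift C ℤ]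
  [∀ n : ℤ, (shiftFunctor C n).Additive] [Pretriangulated C] [MonoidalCategory C]
  [SymmetricCategory C] [TensorTriangulated C] {E : Type w} [Field E] (S : Realisation C E)

lemma toModule_inj {M : ℤ → Type w} [∀ i, AddCommGroup (M i)]
    [∀ i, Module E (M i)] {N : Type w} [AddCommGroup N] [Module E N] (f : ∀ i, M i →ₗ[E] N)
    (a : ℤ) (hb : Function.Injective (DirectSum.toModule E ℤ N f)) : Function.Injective (f a) := by
  have h2 : f a = (DirectSum.toModule E ℤ N f) ∘ₗ (DirectSum.lof E ℤ M a) := by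
    ext x
    simp
  rw [h2]
  exact hb.comp (DirectSum.of_injective a)

lemma mu_mono (X Y : C) : Mono (μ S.H X Y) := by
  have h1 : Mono (μ S.H (X⟦(0 : ℤ)⟧) (Y⟦(-0 : ℤ)⟧) ≫ S.H.map (shiftTensorIso X Y 0).hom) := by
    rw [ModuleCat.mono_iff_injective]
    exact toModule_inj (M := fun i : ℤ => (S.H.obj (X⟦i⟧) ⊗ S.H.obj (Y⟦-i⟧) : ModuleCat.{w} E))
      (fun i : ℤ => (μ S.H (X⟦i⟧) (Y⟦-i⟧) ≫ S.H.map (shiftTensorIso X Y i).hom).hom) 0
      (S.kunneth X Y).1
  have h2 : Mono (μ S.H (X⟦(0 : ℤ)⟧) (Y⟦(-0 : ℤ)⟧)) := mono_of_mono _ (S.H.map (shiftTensorIso X Y 0).hom)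
  let e := (shiftFunctorZero C ℤ).app X
  let f := (shiftFunctorZero' C (-0 : ℤ) (by simp)).app Y
  have h3 : (S.H.map e.inv ⊗ₘ S.H.map f.inv) ≫ μ S.H (X⟦(0 : ℤ)⟧) (Y⟦(-0 : ℤ)⟧) =
      μ S.H X Y ≫ S.H.map (e.inv ⊗ₘ f.inv) := μ_natural S.H e.inv f.inv
  have h4 : Mono (μ S.H X Y ≫ S.H.map (e.inv ⊗ₘ f.inv)) := by
    rw [← h3]
    infer_instance
  exact mono_of_mono _ (S.H.map (e.inv ⊗ₘ f.inv))

lemma kap_mono (X Z : C) (n : ℕ) : Mono (kap S.H X Z n) := by
  induction n with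
  | zero => simp only [kap]; infer_instance
  | succ n ih =>
    have h1 := mu_mono S (pw X Z n) Z
    have h2 := mono_whisker (kap S.H X Z n) (S.H.obj Z)
    simp only [kap]
    infer_instance

/-- If a symmetrizer of `Z` vanishes, the cohomology of `Z` in degree zero vanishes. -/
lemma sym_zero [CharZero E] {X Z : C} {n : ℕ} (h : asym 1 X Z n = 0)
    (hX : ¬ IsZero (S.H.obj X)) : IsZero (S.H.obj Z) := by
  by_contra hZ
  rw [ModuleCat.isZero_iff_subsingleton, not_subsingleton_iff_nontrivial] at hX hZ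
  obtain ⟨x, hx⟩ := exists_ne (0 : S.H.obj X)
  obtain ⟨v, hv⟩ := exists_ne (0 : S.H.obj Z)
  have h1 := asym_lax S.H X Z 1 n
  rw [h, Functor.map_zero, comp_zero] at h1
  have h2 := kap_mono S X Z n
  have h3 : asym 1 (S.H.obj X) (S.H.obj Z) n = 0 := by
    rw [← cancel_mono (kap S.H X Z n), h1, zero_comp]
  have h4 := asym_ten (S.H.obj X) (S.H.obj Z) x v n
  rw [h3] at h4
  have h5 : (n.factorial : ℤ) • ten (S.H.obj X) (S.H.obj Z) x n (fun _ => v) = 0 := by
    rw [← h4]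
    rfl
  rw [← Int.cast_smul_eq_zsmul E] at h5
  rcases smul_eq_zero.1 h5 with h6 | h6
  · have : (n.factorial : E) = 0 := by exact_mod_cast h6
    exact Nat.factorial_ne_zero n (by exact_mod_cast this)
  · exact ten_ne_zero _ _ hx hv n h6

variable [MonoidalPreadditive C]

/-- The sign of the shifts of the unit. -/
lemma unit_sign_nat (n : ℕ) : (β_ ((𝟙_ C)⟦(n : ℤ)⟧) ((𝟙_ C)⟦(n : ℤ)⟧)).hom =
    ((-1 : ℤ) ^ n) • 𝟙 _ := by
  induction n with
  | zero =>
    have h0 : (β_ (𝟙_ C) (𝟙_ C)).hom = (1 : ℤ) • 𝟙 (𝟙_ C ⊗ 𝟙_ C) := by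
      rw [one_zsmul, braiding_tensorUnit_left, unitors_equal, Iso.hom_inv_id]
    rw [pow_zero]
    exact sign_iso ((shiftFunctorZero' C ((0 : ℕ) : ℤ) (by simp)).app (𝟙_ C)).symm h0
  | succ n ih =>
    have h1 : (β_ ((𝟙_ C)⟦(1 : ℤ)⟧) ((𝟙_ C)⟦(1 : ℤ)⟧)).hom = (-1 : ℤ) • 𝟙 _ := by
      rw [TensorTriangulated.sign, neg_one_smul]
    have h2 := sign_tensor ih h1
    rw [← pow_succ] at h2
    refine sign_iso ?_ h2
    exact rShift _ _ 1 ≪≫ (shiftFunctor C (1 : ℤ)).mapIso (ρ_ _) ≪≫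
      ((shiftFunctorAdd' C (n : ℤ) 1 ((n + 1 : ℕ) : ℤ) (by push_cast; ring)).app (𝟙_ C)).symm

lemma unit_sign_odd {i : ℤ} (hi : Odd i) : (β_ ((𝟙_ C)⟦i⟧) ((𝟙_ C)⟦i⟧)).hom =
    (-1 : ℤ) • 𝟙 _ := by
  rcases Int.natAbs_eq i with h | h
  · have h1 := unit_sign_nat (C := C) i.natAbs
    rw [Odd.neg_one_pow (Int.natAbs_odd.2 hi)] at h1
    rw [← h] at h1
    exact h1
  · have h1 := unit_sign_nat (C := C) i.natAbs
    rw [Odd.neg_one_pow (Int.natAbs_odd.2 hi)] at h1
    refine sign_inv (B := (𝟙_ C)⟦(i.natAbs : ℤ)⟧) ?_ (by norm_num) h1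
    exact rShift _ _ _ ≪≫ (shiftFunctor C (i.natAbs : ℤ)).mapIso (ρ_ _) ≪≫
      ((shiftFunctorAdd' C i (i.natAbs : ℤ) 0 (by omega)).app (𝟙_ C)).symm ≪≫
      (shiftFunctorZero C ℤ).app (𝟙_ C)

variable [RightRigidCategory C] [IsTriangulated C] {t : TStructure C} {E₀ : Type w} [Field E₀]
  {S₀ : Realisation C E₀} (hm : IsMotivic t (fun _ : Unit => S₀))
  (hid : ∀ e : 𝟙_ C ⟶ 𝟙_ C, e ≫ e = e → e = 0 ∨ e = 𝟙 _)

include hm hid in
/-- **Evenness.** -/
theorem even_heart [CharZero E] {M : C} (hM : Hrt t M) {i : ℤ} (hi : Odd i) :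
    IsZero (S.H.obj (M⟦i⟧)) := by
  obtain ⟨n, hn⟩ := alt_heart_zero (compat hm) (texact hm ()) (unitHrt hm) hid hM
  rw [← asym_neg_one] at hn
  have h1 := asym_zero (by norm_num) (unit_sign_odd (C := C) hi) (Y := 𝟙_ C) hn
  have h2 : IsZero (S.H.obj (M ⊗ (𝟙_ C)⟦i⟧)) := by
    refine sym_zero S (X := 𝟙_ C ⊗ 𝟙_ C) (n := n) h1 fun h => ?_
    exact not_isZero_H_unit S (h.of_iso (S.H.mapIso (λ_ (𝟙_ C)).symm))
  exact h2.of_iso (S.H.mapIso (rShift M (𝟙_ C) i ≪≫ (shiftFunctor C i).mapIso (ρ_ M)).symm)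

end

end Pool.Agent.X307.MT
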