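import Pool.Agent.X307.MT.Tw

/-!
# Symmetrizers and tensoring with an invertible object of sign `ζ`
-/

set_option autoImplicit false
set_option linter.unusedSectionVars false
set_option linter.unusedSimpArgs false
set_option backward.isDefEq.respectTransparency false
set_option backward.defeqAttrib.useBackward true

open CategoryTheory Limits MonoidalCategory

namespace Pool.Agent.X307.MT

open Pool.Agent.Y116.MT

universe v u w v' u'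

section

variable {C : Type u} [Category.{v} C] [MonoidalCategory C] [SymmetricCategory C]

/-- The (not normalised) symmetrizer with sign `ε`. -/
def asym [Preadditive C] (ε : ℤ) (X Z : C) : ∀ n : ℕ, (pw X Z n ⟶ pw X Z n)
  | 0 => 𝟙 _
  | n + 1 => ∑ i : Fin (n + 1), (ε ^ (n + i.val)) • (mv X Z n i ≫ (asym ε X Z n ▷ Z))

lemma asym_neg_one [Preadditive C] (X Z : C) (n : ℕ) : asym (-1) X Z n = alt X Z n := by
  induction n with
  | zero => rfl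
  | succ n ih => simp only [asym, alt, ih]

/-- The comparison of powers. -/
def psi (X Y Z U : C) : ∀ n : ℕ, pw X Z n ⊗ pw Y U n ⟶ pw (X ⊗ Y) (Z ⊗ U) n
  | 0 => 𝟙 _
  | n + 1 => tensorμ (pw X Z n) Z (pw Y U n) U ≫ (psi X Y Z U n ▷ (Z ⊗ U))

instance tensorμ_isIso (X₁ X₂ Y₁ Y₂ : C) : IsIso (tensorμ X₁ X₂ Y₁ Y₂) :=
  ⟨tensorδ X₁ X₂ Y₁ Y₂, by simp, by simp⟩

instance psi_isIso (X Y Z U : C) (n : ℕ) : IsIso (psi X Y Z U n) := by
  induction n with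
  | zero => simp only [psi]; infer_instance
  | succ n ih => simp only [psi]; infer_instance

/-- The exchange of the last two factors. -/
lemma exch_psi (A B Z U : C) :
    ((exch A Z Z).hom ⊗ₘ (exch B U U).hom) ≫ tensorμ (A ⊗ Z) Z (B ⊗ U) U ≫
      (tensorμ A Z B U ▷ (Z ⊗ U)) =
    tensorμ (A ⊗ Z) Z (B ⊗ U) U ≫ (tensorμ A Z B U ▷ (Z ⊗ U)) ≫
      (exch (A ⊗ B) (Z ⊗ U) (Z ⊗ U)).hom := by
  rw [← cancel_mono (α_ (A ⊗ B) (Z ⊗ U) (Z ⊗ U)).hom]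
  simp only [Category.assoc]
  rw [associator_monoidal]
  have h1 : (exch (A ⊗ B) (Z ⊗ U) (Z ⊗ U)).hom ≫ (α_ (A ⊗ B) (Z ⊗ U) (Z ⊗ U)).hom =
      (α_ (A ⊗ B) (Z ⊗ U) (Z ⊗ U)).hom ≫ (A ⊗ B) ◁ (β_ (Z ⊗ U) (Z ⊗ U)).hom := by
    simp [exch]
  rw [h1, associator_monoidal_assoc, ← MonoidalCategory.whiskerLeft_comp,
    SymmetricCategory.tensorμ_braid_swap, MonoidalCategory.whiskerLeft_comp]
  have h2 : tensorμ A (Z ⊗ Z) B (U ⊗ U) ≫ (A ⊗ B) ◁ ((β_ Z Z).hom ⊗ₘ (β_ U U).hom) =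
      ((A ◁ (β_ Z Z).hom) ⊗ₘ (B ◁ (β_ U U).hom)) ≫ tensorμ A (Z ⊗ Z) B (U ⊗ U) := by
    have h3 := tensorμ_natural (𝟙 A) (β_ Z Z).hom (𝟙 B) (β_ U U).hom
    simp only [id_tensorHom, id_tensorHom_id] at h3
    simpa using h3.symm
  rw [reassoc_of% h2]
  have h4 : ((exch A Z Z).hom ⊗ₘ (exch B U U).hom) ≫
      ((α_ A Z Z).hom ⊗ₘ (α_ B U U).hom) = ((α_ A Z Z).hom ⊗ₘ (α_ B U U).hom) ≫
      ((A ◁ (β_ Z Z).hom) ⊗ₘ (B ◁ (β_ U U).hom)) := by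
    rw [tensorHom_comp_tensorHom, tensorHom_comp_tensorHom]
    congr 1 <;> simp [exch]
  rw [reassoc_of% h4]

/-- The move of a factor to the last place. -/
lemma mv_psi (X Y Z U : C) (n : ℕ) : ∀ i : Fin (n + 1),
    (mv X Z n i ⊗ₘ mv Y U n i) ≫ psi X Y Z U (n + 1) =
      psi X Y Z U (n + 1) ≫ mv (X ⊗ Y) (Z ⊗ U) n i := by
  induction n with
  | zero =>
    intro i
    simp [mv]
  | succ n ih =>
    intro i
    refine Fin.lastCases ?_ (fun j => ?_) i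
    · simp
    · rw [mv_castSucc, mv_castSucc, mv_castSucc]
      have e1 : psi X Y Z U (n + 1 + 1) = tensorμ (pw X Z n ⊗ Z) Z (pw Y U n ⊗ U) U ≫
          (tensorμ (pw X Z n) Z (pw Y U n) U ▷ (Z ⊗ U)) ≫
            ((psi X Y Z U n ▷ (Z ⊗ U)) ▷ (Z ⊗ U)) := by
        simp only [psi, comp_whiskerRight]
      have e2 : psi X Y Z U (n + 1 + 1) = tensorμ (pw X Z n ⊗ Z) Z (pw Y U n ⊗ U) U ≫
          (psi X Y Z U (n + 1) ▷ (Z ⊗ U)) := rfl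
      have h1 : ((exch (pw X Z n) Z Z).hom ⊗ₘ (exch (pw Y U n) U U).hom) ≫
          psi X Y Z U (n + 1 + 1) = psi X Y Z U (n + 1 + 1) ≫
            (exch (pw (X ⊗ Y) (Z ⊗ U) n) (Z ⊗ U) (Z ⊗ U)).hom := by
        have h5 := exch_psi (pw X Z n) (pw Y U n) Z U
        rw [e1]
        simp only [Category.assoc]
        rw [reassoc_of% h5, exch_natural_first]
      have h2 : ((mv X Z n j ▷ Z) ⊗ₘ (mv Y U n j ▷ U)) ≫ psi X Y Z U (n + 1 + 1) =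
          psi X Y Z U (n + 1 + 1) ≫ (mv (X ⊗ Y) (Z ⊗ U) n j ▷ (Z ⊗ U)) := by
        rw [e2, ← Category.assoc]
        have h3 : ((mv X Z n j ▷ Z) ⊗ₘ (mv Y U n j ▷ U)) ≫
            tensorμ (pw X Z n ⊗ Z) Z (pw Y U n ⊗ U) U =
            tensorμ (pw X Z n ⊗ Z) Z (pw Y U n ⊗ U) U ≫
              ((mv X Z n j ⊗ₘ mv Y U n j) ▷ (Z ⊗ U)) := by
          have h4 := tensorμ_natural (mv X Z n j) (𝟙 Z) (mv Y U n j) (𝟙 U)
          simpa using h4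
        rw [h3, Category.assoc, Category.assoc, ← comp_whiskerRight, ← comp_whiskerRight, ih]
      rw [← tensorHom_comp_tensorHom, Category.assoc, h1, reassoc_of% h2]

variable [Preadditive C] [MonoidalPreadditive C]

lemma exch_sign {U : C} {ζ : ℤ} (hU : (β_ U U).hom = ζ • 𝟙 (U ⊗ U)) (W : C) :
    (exch W U U).hom = ζ • 𝟙 ((W ⊗ U) ⊗ U) := by
  simp only [exch, Iso.trans_hom, whiskerLeftIso_hom, Iso.symm_hom, hU, wl_zsmul,
    MonoidalCategory.whiskerLeft_id, Preadditive.zsmul_comp, Preadditive.comp_zsmul,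
    Category.id_comp, Iso.hom_inv_id]

lemma mv_sign {U : C} {ζ : ℤ} (hζ : ζ * ζ = 1) (hU : (β_ U U).hom = ζ • 𝟙 (U ⊗ U)) (Y : C)
    (n : ℕ) : ∀ i : Fin (n + 1), mv Y U n i = (ζ ^ (n + i.val)) • 𝟙 (pw Y U (n + 1)) := by
  induction n with
  | zero =>
    intro i
    simp [mv]
  | succ n ih =>
    intro i
    refine Fin.lastCases ?_ (fun j => ?_) i
    · rw [mv_last, Fin.val_last, ← two_mul, pow_mul, pow_two, hζ, one_pow, one_zsmul]
    · rw [mv_castSucc, ih, exch_sign hU, wr_zsmul, id_whiskerRight, Preadditive.zsmul_comp,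
        Preadditive.comp_zsmul, Category.comp_id, smul_smul, Fin.val_castSucc,
        show n + 1 + j.val = (n + j.val) + 1 by omega, pow_succ]

lemma zsmul_tensor {X Y Z W : C} (f : X ⟶ Y) (g : Z ⟶ W) (n : ℤ) :
    (n • f) ⊗ₘ g = n • (f ⊗ₘ g) := by
  rw [MonoidalCategory.tensorHom_def, MonoidalCategory.tensorHom_def, wr_zsmul,
    Preadditive.zsmul_comp]

lemma tensor_zsmul {X Y Z W : C} (f : X ⟶ Y) (g : Z ⟶ W) (n : ℤ) :
    f ⊗ₘ (n • g) = n • (f ⊗ₘ g) := by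
  rw [MonoidalCategory.tensorHom_def, MonoidalCategory.tensorHom_def, wl_zsmul,
    Preadditive.comp_zsmul]

lemma sum_tensor {X Y Z W : C} {ι : Type*} (s : Finset ι) (f : ι → (X ⟶ Y)) (g : Z ⟶ W) :
    (∑ i ∈ s, f i) ⊗ₘ g = ∑ i ∈ s, (f i ⊗ₘ g) := by
  simp only [MonoidalCategory.tensorHom_def]
  have h : (∑ i ∈ s, f i) ▷ Z = ∑ i ∈ s, (f i ▷ Z) := (tensorRight Z).map_sum f s
  rw [h, Preadditive.sum_comp]

/-- The symmetrizer after tensoring with an object of sign `ζ`. -/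
lemma asym_psi {U : C} {ζ : ℤ} (hζ : ζ * ζ = 1) (hU : (β_ U U).hom = ζ • 𝟙 (U ⊗ U))
    (ε : ℤ) (X Y Z : C) (n : ℕ) :
    (asym ε X Z n ⊗ₘ 𝟙 (pw Y U n)) ≫ psi X Y Z U n =
      psi X Y Z U n ≫ asym (ε * ζ) (X ⊗ Y) (Z ⊗ U) n := by
  induction n with
  | zero => simp [asym, psi]
  | succ n ih =>
    simp only [asym]
    rw [sum_tensor, Preadditive.sum_comp, Preadditive.comp_sum]
    refine Finset.sum_congr rfl (fun i _ => ?_)
    have e1 : (ζ ^ (n + i.val)) * (ζ ^ (n + i.val)) = 1 := by rw [← mul_pow, hζ, one_pow]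
    have h1 : 𝟙 (pw Y U (n + 1)) = (ζ ^ (n + i.val)) • mv Y U n i := by
      rw [mv_sign hζ hU, smul_smul, e1, one_zsmul]
    have h2 : ((asym ε X Z n ▷ Z) ⊗ₘ 𝟙 (pw Y U (n + 1))) ≫ psi X Y Z U (n + 1) =
        psi X Y Z U (n + 1) ≫ (asym (ε * ζ) (X ⊗ Y) (Z ⊗ U) n ▷ (Z ⊗ U)) := by
      have h3 : ((asym ε X Z n ▷ Z) ⊗ₘ 𝟙 (pw Y U n ⊗ U)) ≫ tensorμ (pw X Z n) Z (pw Y U n) U =
          tensorμ (pw X Z n) Z (pw Y U n) U ≫ ((asym ε X Z n ⊗ₘ 𝟙 (pw Y U n)) ▷ (Z ⊗ U)) := by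
        have h4 := tensorμ_natural (asym ε X Z n) (𝟙 Z) (𝟙 (pw Y U n)) (𝟙 U)
        simpa using h4
      simp only [psi]
      rw [reassoc_of% h3, ← comp_whiskerRight, ih, comp_whiskerRight, Category.assoc]
    have h5 : ((mv X Z n i ≫ (asym ε X Z n ▷ Z)) ⊗ₘ 𝟙 (pw Y U (n + 1))) =
        (ζ ^ (n + i.val)) • ((mv X Z n i ⊗ₘ mv Y U n i) ≫
          ((asym ε X Z n ▷ Z) ⊗ₘ 𝟙 (pw Y U (n + 1)))) := by
      rw [tensorHom_comp_tensorHom, ← tensor_zsmul, Category.comp_id, ← h1]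
    rw [zsmul_tensor, h5, Preadditive.zsmul_comp, Preadditive.zsmul_comp, Category.assoc, h2,
      ← Category.assoc (mv X Z n i ⊗ₘ mv Y U n i), mv_psi, Preadditive.comp_zsmul, smul_smul,
      mul_pow, Category.assoc]

lemma asym_zero {U : C} {ζ : ℤ} (hζ : ζ * ζ = 1) (hU : (β_ U U).hom = ζ • 𝟙 (U ⊗ U))
    {ε : ℤ} {X Y Z : C} {n : ℕ} (h : asym ε X Z n = 0) :
    asym (ε * ζ) (X ⊗ Y) (Z ⊗ U) n = 0 := by
  have h0 : ((0 : pw X Z n ⟶ pw X Z n) ⊗ₘ 𝟙 (pw Y U n)) = 0 := by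
    rw [MonoidalCategory.tensorHom_def]
    have : (0 : pw X Z n ⟶ pw X Z n) ▷ pw Y U n = 0 := (tensorRight _).map_zero _ _
    rw [this, zero_comp]
  have h1 := asym_psi hζ hU ε X Y Z n
  rw [h, h0, zero_comp] at h1
  rw [← cancel_epi (psi X Y Z U n), ← h1, comp_zero]

/-- The sign of an object is invariant under isomorphisms. -/
lemma sign_iso {A B : C} (e : A ≅ B) {a : ℤ} (hA : (β_ A A).hom = a • 𝟙 (A ⊗ A)) :
    (β_ B B).hom = a • 𝟙 (B ⊗ B) := by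
  have h1 : (e.hom ⊗ₘ e.hom) ≫ (β_ B B).hom = (β_ A A).hom ≫ (e.hom ⊗ₘ e.hom) :=
    BraidedCategory.braiding_naturality e.hom e.hom
  rw [← cancel_epi (e.hom ⊗ₘ e.hom), h1, hA, Preadditive.zsmul_comp, Preadditive.comp_zsmul,
    Category.id_comp, Category.comp_id]

/-- The sign of a tensor product. -/
lemma sign_tensor {A B : C} {a b : ℤ} (hA : (β_ A A).hom = a • 𝟙 (A ⊗ A))
    (hB : (β_ B B).hom = b • 𝟙 (B ⊗ B)) :
    (β_ (A ⊗ B) (A ⊗ B)).hom = (a * b) • 𝟙 ((A ⊗ B) ⊗ (A ⊗ B)) := by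
  have h1 := SymmetricCategory.tensorμ_braid_swap A B
  rw [← cancel_epi (tensorμ A A B B), h1, hA, hB, zsmul_tensor, tensor_zsmul, smul_smul,
    Preadditive.zsmul_comp, Preadditive.comp_zsmul, id_tensorHom_id, Category.id_comp,
    Category.comp_id]

/-- The sign of the inverse of an object of sign `-1`. -/
lemma sign_inv {A B : C} (e : A ⊗ B ≅ 𝟙_ C) {b : ℤ} (hb : b * b = 1)
    (hB : (β_ B B).hom = b • 𝟙 (B ⊗ B)) : (β_ A A).hom = b • 𝟙 (A ⊗ A) := by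
  have h0 : (β_ (𝟙_ C) (𝟙_ C)).hom = (1 : ℤ) • 𝟙 (𝟙_ C ⊗ 𝟙_ C) := by
    rw [one_zsmul, braiding_tensorUnit_left, unitors_equal, Iso.hom_inv_id]
  have h1 := sign_iso e.symm h0
  have h2 := SymmetricCategory.tensorμ_braid_swap A B
  rw [h1, one_zsmul, Category.comp_id] at h2
  have h3 : ((β_ A A).hom ⊗ₘ (β_ B B).hom) = 𝟙 _ := by
    rw [← cancel_mono (tensorμ A A B B), ← h2, Category.id_comp]
  rw [hB, tensor_zsmul] at h3
  have h4 : (β_ A A).hom ▷ (B ⊗ B) = b • 𝟙 ((A ⊗ A) ⊗ (B ⊗ B)) := by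
    rw [tensorHom_id] at h3
    rw [← h3, smul_smul, hb, one_zsmul]
  have h5 : (b • 𝟙 (A ⊗ A)) ▷ (B ⊗ B) = b • 𝟙 ((A ⊗ A) ⊗ (B ⊗ B)) := by
    rw [wr_zsmul, id_whiskerRight]
  rw [← h5, whiskerRight_tensor, whiskerRight_tensor] at h4
  have h6 : (β_ A A).hom ▷ B ▷ B = (b • 𝟙 (A ⊗ A)) ▷ B ▷ B := by
    rw [← cancel_epi (α_ (A ⊗ A) B B).inv, ← cancel_mono (α_ (A ⊗ A) B B).hom]
    simpa only [Category.assoc] using h4
  have := tensorRight_equiv (β_ B A ≪≫ e)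
  exact (tensorRight B).map_injective ((tensorRight B).map_injective h6)

end

end Pool.Agent.X307.MT
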