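import Pool.Agent.X307.MT.DConj

/-!
# Lefschetz and Künneth type standard conjectures, nilpotence
-/

set_option autoImplicit false
set_option linter.unusedSectionVars false
set_option linter.unusedSimpArgs false
set_option backward.isDefEq.respectTransparency false
set_option backward.defeqAttrib.useBackward true

open CategoryTheory Limits MonoidalCategory Pretriangulated Triangulated ZeroObject

namespace Pool.Agent.X307.MT

open Pool.Agent.Y116.MT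

universe v u w

section

variable {C : Type u} [Category.{v} C] [Preadditive C] [HasZeroObject C] [HasShift C ℤ]
  [∀ n : ℤ, (shiftFunctor C n).Additive] [Pretriangulated C] [MonoidalCategory C]
  [SymmetricCategory C] [TensorTriangulated C]

section

variable {E' : Type w} [Field E'] {S : Realisation C E'}

lemma tensT_zero {T : C} (hT : S.Deg T (-2)) {X : C} {i : ℤ} (hX : IsZero (S.H.obj (X⟦i⟧))) :
    IsZero (S.H.obj ((X ⊗ T)⟦i - 2⟧)) := by
  have h0 : IsZero (S.H.obj (X ⊗ T⟦i - 2⟧)) := by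
    rw [ModuleCat.isZero_iff_subsingleton]
    have h1 : ∀ j : ℤ, Subsingleton (S.H.obj (X⟦j⟧) ⊗ S.H.obj (T⟦i - 2⟧⟦-j⟧) :
        ModuleCat.{w} E') := by
      intro j
      by_cases hj : j = i
      · subst hj
        exact tensor_subsingleton_left hX
      · exact tensor_subsingleton_right ((hT (i - 2 + -j) (by omega)).of_iso
          (S.H.mapIso ((shiftFunctorAdd C (i - 2) (-j)).app T).symm))
    have h2 : Subsingleton (DirectSum ℤ (fun j : ℤ =>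
        (S.H.obj (X⟦j⟧) ⊗ S.H.obj (T⟦i - 2⟧⟦-j⟧) : ModuleCat.{w} E'))) := by
      constructor
      intro x y
      ext j
      have := h1 j
      exact Subsingleton.elim _ _
    exact (S.kunneth X (T⟦i - 2⟧)).2.subsingleton
  exact h0.of_iso (S.H.mapIso (rShift X T (i - 2)).symm)

lemma tw_zero {T : C} (hT : S.Deg T (-2)) {X : C} {i : ℤ} (hX : IsZero (S.H.obj (X⟦i⟧)))
    (k : ℕ) : IsZero (S.H.obj ((twist T X k)⟦i - 2 * k⟧)) := by
  induction k with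
  | zero =>
    have e : i - 2 * ((0 : ℕ) : ℤ) = i := by simp
    rw [e]
    exact hX
  | succ k ih =>
    have h := tensT_zero hT ih
    have e : i - 2 * (k : ℤ) - 2 = i - 2 * ((k + 1 : ℕ) : ℤ) := by push_cast; ring
    rw [e] at h
    exact h

/-- Twisting a split epimorphism. -/
lemma tw_iso {T T' : C} (eT : T ⊗ T' ≅ 𝟙_ C) (hT : S.Deg T (-2)) {X M : C} {a : M ⟶ X}
    {b : X ⟶ M} (hab : a ≫ b = 𝟙 M) {i : ℤ} (hb : IsIso (S.H.map (b⟦i⟧'))) (k : ℕ) :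
    IsIso (S.H.map ((twMap T b k)⟦i - 2 * k⟧')) := by
  obtain ⟨K, w, h, hK⟩ := distinguished_cocone_triangle₁ b
  have hh : h = 0 := by
    rw [← Category.id_comp h, ← hab, Category.assoc, comp23 hK, comp_zero]
  obtain ⟨r, hr⟩ := split3 hK hh
  have h1 : S.H.map (w⟦i⟧') = 0 := by
    rw [← cancel_mono (S.H.map (b⟦i⟧')), ← Hcomp, comp12 hK, Functor.map_zero,
      Functor.map_zero, zero_comp]
  have h2 : IsZero (S.H.obj (K⟦i⟧)) := by
    rw [IsZero.iff_id_eq_zero, ← Hid, ← hr, Hcomp, h1, zero_comp]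
  obtain ⟨h', hK'⟩ := tw_dist T hK k
  have h3 := tw_zero hT h2 k
  have h4 : Mono (S.H.map ((twMap T b k)⟦i - 2 * k⟧')) := hmono2 S.H hK' _ h3
  have h5 : Epi (S.H.map ((twMap T b k)⟦i - 2 * k⟧')) := by
    have h6 : S.H.map ((twMap T a k)⟦i - 2 * k⟧') ≫ S.H.map ((twMap T b k)⟦i - 2 * k⟧') =
        𝟙 _ := by rw [← Hcomp, ← twMap_comp, hab, twMap_id, Hid]
    exact SplitEpi.epi ⟨_, h6⟩
  exact isIso_of_mono_of_epi _

end

variable {Λ : Type*} {E : Λ → Type w} [∀ l, Field (E l)] {R : ∀ l, Realisation C (E l)}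
  {t : TStructure C}
  [MonoidalPreadditive C] [RightRigidCategory C] [IsTriangulated C]
  (hm : IsMotivic t R) (hid : ∀ e : 𝟙_ C ⟶ 𝟙_ C, e ≫ e = e → e = 0 ∨ e = 𝟙 _)

include hm hid

/-- **Standard conjecture of Lefschetz type.** -/
theorem conjB [Nonempty Λ] {Chow : ObjectProperty C} {T : C} (hL : HardLefschetz Chow T R)
    {Q : C} (e : ℤ)
    (hQ : ∀ k : ℕ, ∃ L : Q ⟶ twist T Q k, ∀ l, IsIso ((R l).H.map (L⟦e - k⟧'))) (k : ℕ)
    (L : Q ⟶ twist T Q k) (hL' : ∀ l, IsIso ((R l).H.map (L⟦e - k⟧'))) :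
    ∃ Λ' : twist T Q k ⟶ Q, ∀ l, (R l).H.map (L⟦e - k⟧') ≫ (R l).H.map (Λ'⟦e - k⟧') = 𝟙 _ ∧
      (R l).H.map (Λ'⟦e - k⟧') ≫ (R l).H.map (L⟦e - k⟧') = 𝟙 _ := by
  have l₀ : Λ := Classical.arbitrary Λ
  obtain ⟨T', ⟨eT⟩⟩ := hL.invertible
  have hT1 := deg_LE hm hid l₀ (hL.degree l₀)
  have hT2 := deg_GE hm hid l₀ (hL.degree l₀)
  obtain ⟨M, a, b, hM1, hM2, hab, hb⟩ := hl_pieces hm hid hL e hQ (e - k)
  obtain ⟨N, a', b', hN1, hN2, hab', hb'⟩ := hl_pieces hm hid hL e hQ (e + k)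
  have e1 : e + k - 2 * k = e - k := by ring
  have hN3 : t.IsLE (twist T N k) (e - k) := by
    have := tw_LE (compat hm) hT1 hN1 k
    rwa [e1] at this
  have hN4 : t.IsGE (twist T N k) (e - k) := by
    have := tw_GE (compat hm) hT2 hN2 k
    rwa [e1] at this
  have i1 : ∀ l, IsIso ((R l).H.map ((twMap T b' k)⟦e - k⟧')) := fun l => by
    have := tw_iso eT (hL.degree l) hab' (hb' l) k
    rwa [e1] at this
  have i2 : ∀ l, IsIso ((R l).H.map (a⟦e - k⟧')) := fun l => Hiso_left (R l) hab _ (hb l)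
  have i3 : ∀ l, IsIso ((R l).H.map ((a ≫ L ≫ twMap T b' k)⟦e - k⟧')) := fun l => by
    have := i1 l
    have := i2 l
    have := hL' l
    rw [Hcomp, Hcomp]
    infer_instance
  have i4 : IsIso (a ≫ L ≫ twMap T b' k) := iso_of_deg hm hid l₀ hM1 hM2 hN3 hN4 _ (i3 l₀)
  refine ⟨twMap T b' k ≫ inv (a ≫ L ≫ twMap T b' k) ≫ a, fun l => ?_⟩
  have := i1 l
  have := i2 l
  have := hL' l
  have h1 : (R l).H.map (L⟦e - k⟧') ≫
      (R l).H.map ((twMap T b' k ≫ inv (a ≫ L ≫ twMap T b' k) ≫ a)⟦e - k⟧') = 𝟙 _ := by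
    rw [← cancel_epi ((R l).H.map (a⟦e - k⟧')), Category.comp_id, ← Hcomp, ← Hcomp]
    have h2 : a ≫ L ≫ twMap T b' k ≫ inv (a ≫ L ≫ twMap T b' k) ≫ a = a := by
      have := IsIso.hom_inv_id_assoc (a ≫ L ≫ twMap T b' k) a
      simpa only [Category.assoc] using this
    rw [h2]
  refine ⟨h1, ?_⟩
  rw [← cancel_epi ((R l).H.map (L⟦e - k⟧')), Category.comp_id, reassoc_of% h1]

/-- **Standard conjecture of Künneth type.** -/
theorem conjC [Nonempty Λ] {Chow : ObjectProperty C} {T : C} (hL : HardLefschetz Chow T R)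
    {P : C} (hP : Chow P) (n : ℤ) : ∃ p : P ⟶ P, ∀ l, (R l).H.map (p⟦n⟧') = 𝟙 _ ∧
      ∀ i : ℤ, i ≠ n → (R l).H.map (p⟦i⟧') = 0 := by
  obtain ⟨Q, i, r, hir, hQ, hpc⟩ := chow_pieces hm hid hL hP
  obtain ⟨M, a, b, hM1, hM2, hab, hb⟩ := hpc n
  refine ⟨i ≫ (b ≫ a) ≫ r, fun l => ⟨?_, fun j hj => ?_⟩⟩
  · have h1 : (R l).H.map ((b ≫ a)⟦n⟧') = 𝟙 _ := by
      have := hb l
      rw [← cancel_mono ((R l).H.map (b⟦n⟧')), Hcomp, Category.assoc, ← Hcomp (R l) a, hab, Hid,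
        Category.comp_id, Category.id_comp]
    rw [Hcomp, Hcomp, h1, Category.id_comp, ← Hcomp, hir, Hid]
  · have h1 : IsZero ((R l).H.obj (M⟦j⟧)) := by
      rcases lt_or_gt_of_ne hj with h | h
      · exact (texact hm l).isGE hM2 _ h
      · exact (texact hm l).isLE hM1 _ h
    rw [Hcomp, Hcomp, Hcomp, h1.eq_of_tgt ((R l).H.map (b⟦j⟧')) 0, zero_comp, zero_comp,
      comp_zero]

/-- A morphism of degree at most `q` to an object of degree at least `q` that is homologically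
trivial vanishes. -/
lemma zero_of_ghost (l : Λ) {X B : C} {q : ℤ} (hX : t.IsLE X q) (hB : t.IsGE B q) (u : X ⟶ B)
    (hu : (R l).H.map (u⟦q⟧') = 0) : u = 0 := by
  obtain ⟨X1, X2, h1, h2, f, g, h, hT⟩ := t.exists_triangle X (q - 1) q (by omega)
  obtain ⟨B1, B2, h3, h4, f', g', h', hT'⟩ := t.exists_triangle B q (q + 1) rfl
  have h1' : t.IsLE X1 (q - 1) := ⟨h1⟩
  have h2' : t.IsGE X2 q := ⟨h2⟩
  have h3' : t.IsLE B1 q := ⟨h3⟩
  have h4' : t.IsGE B2 (q + 1) := ⟨h4⟩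
  have h5 : f ≫ u = 0 := t.zero_of_isLE_of_isGE _ (q - 1) q (by omega) h1' hB
  obtain ⟨u', hu'⟩ := ye2 hT u h5
  have hX2 : t.IsLE X2 q := isLE3 hT (t.isLE_of_le X1 (q - 1) (q + 1)) hX
  have h6 : u' ≫ g' = 0 := t.zero_of_isLE_of_isGE _ q (q + 1) (by omega) hX2 h4'
  obtain ⟨u'', hu''⟩ := ce2 hT' u' h6
  have hB1 : t.IsGE B1 q := isGE1 hT' hB (t.isGE_of_ge B2 (q - 1) (q + 1))
  have i1 : IsIso ((R l).H.map (g⟦q⟧')) :=
    Hiso2 (R l) hT _ ((texact hm l).isLE h1' _ (by omega)) ((texact hm l).isLE h1' _ (by omega))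
  have i2 : IsIso ((R l).H.map (f'⟦q⟧')) :=
    Hiso1 (R l) hT' _ ((texact hm l).isGE h4' _ (by omega))
      ((texact hm l).isGE h4' _ (by omega))
  have h7 : (R l).H.map (u''⟦q⟧') = 0 := by
    rw [← cancel_mono ((R l).H.map (f'⟦q⟧')), zero_comp, ← Hcomp, ← hu'',
      ← cancel_epi ((R l).H.map (g⟦q⟧')), comp_zero, ← Hcomp, ← hu', hu]
  have h8 : u''⟦q⟧' = 0 := faithfulHrt hm hid l
    ⟨t.isLE_shift X2 q q 0, t.isGE_shift X2 q q 0⟩
    ⟨t.isLE_shift B1 q q 0, t.isGE_shift B1 q q 0⟩ _ h7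
  have h9 : u'' = 0 := (shiftFunctor C q).map_injective (by rw [h8, Functor.map_zero])
  rw [hu', hu'', h9, zero_comp, comp_zero]

/-- Homologically trivial endomorphisms are nilpotent. -/
theorem nilp (l : Λ) {X : C} (a : X ⟶ X) (ha : ∀ i : ℤ, (R l).H.map (a⟦i⟧') = 0) :
    IsNilpotent (show End X from a) := by
  obtain ⟨N, h1, h2⟩ := bdd hm hid l X
  have h1' : t.IsLE X N := ⟨h1⟩
  have h2' : t.IsGE X (-N) := ⟨h2⟩
  have key : ∀ j : ℕ, ∃ (A : C) (f : X ⟶ A) (ι : A ⟶ X), t.IsLE A (N - j) ∧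
      (show X ⟶ X from (show End X from a) ^ j) = f ≫ ι := by
    intro j
    induction j with
    | zero => exact ⟨X, 𝟙 X, 𝟙 X, by simpa using h1', by simp [End.one_def]⟩
    | succ j ih =>
      obtain ⟨A, f, ι, hA, hf⟩ := ih
      obtain ⟨B1, B2, h3, h4, f', g', h', hT'⟩ := t.exists_triangle X (N - (j + 1 : ℕ)) (N - j)
        (by push_cast; ring)
      have h5 : (ι ≫ a) ≫ g' = 0 := by
        apply zero_of_ghost hm hid l hA ⟨h4⟩
        rw [Hcomp, Hcomp, ha, comp_zero, zero_comp]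
      obtain ⟨v, hv⟩ := ce2 hT' _ h5
      refine ⟨B1, f ≫ v, f', ⟨h3⟩, ?_⟩
      rw [Category.assoc, ← hv, ← Category.assoc, ← hf, pow_succ']
      rfl
  obtain ⟨A, f, ι, hA, hf⟩ := key (2 * N + 1)
  refine ⟨2 * N + 1, ?_⟩
  have h3 : ι = 0 := t.zero_of_isLE_of_isGE _ (N - (2 * N + 1 : ℕ)) (-N) (by push_cast; omega)
    hA h2'
  change (show X ⟶ X from (show End X from a) ^ (2 * N + 1)) = 0
  rw [hf, h3, comp_zero]

end

end Pool.Agent.X307.MT
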