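import Pool.Agent.X307.MT.Four

/-!
# Objects with truncations for all realisations are closed under extensions
-/

set_option autoImplicit false
set_option linter.unusedSectionVars false
set_option linter.unusedSimpArgs false
set_option backward.isDefEq.respectTransparency false
set_option backward.defeqAttrib.useBackward true

open CategoryTheory Limits MonoidalCategory Pretriangulated Triangulated

namespace Pool.Agent.X307.MT

open Pool.Agent.Y116.MT

universe v u w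

section

variable {C : Type u} [Category.{v} C] [Preadditive C] [HasZeroObject C] [HasShift C ℤ]
  [∀ n : ℤ, (shiftFunctor C n).Additive] [Pretriangulated C] [MonoidalCategory C]
  [SymmetricCategory C] [TensorTriangulated C]
  {Λ : Type*} {E : Λ → Type w} [∀ l, Field (E l)] {R : ∀ l, Realisation C (E l)}

/-- `X` has a truncation in degree `n` for all realisations. -/
def TrAt (R : ∀ l, Realisation C (E l)) (n : ℤ) (X : C) : Prop :=
  ∃ (A B : C) (f : A ⟶ X) (g : X ⟶ B) (h : B ⟶ A⟦(1 : ℤ)⟧),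
    Triangle.mk f g h ∈ distTriang C ∧ RLE R n A ∧ RGE R (n + 1) B

lemma RLE.mono {n m : ℤ} (h : n ≤ m) {X : C} (hX : RLE R n X) : RLE R m X :=
  fun l i hi => hX l i (by omega)

lemma RGE.mono {n m : ℤ} (h : m ≤ n) {X : C} (hX : RGE R n X) : RGE R m X :=
  fun l i hi => hX l i (by omega)

section

variable {X Y Z : C} {f : X ⟶ Y} {g : Y ⟶ Z} {h : Z ⟶ X⟦(1 : ℤ)⟧}
  (hT : Triangle.mk f g h ∈ distTriang C)

include hT

lemma RLE.two {n : ℤ} (hX : RLE R n X) (hZ : RLE R n Z) : RLE R n Y :=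
  fun l i hi => hz2 (R l).H hT i (hX l i hi) (hZ l i hi)

lemma RGE.two {n : ℤ} (hX : RGE R n X) (hZ : RGE R n Z) : RGE R n Y :=
  fun l i hi => hz2 (R l).H hT i (hX l i hi) (hZ l i hi)

lemma RLE.three {n : ℤ} (hX : RLE R (n + 1) X) (hY : RLE R n Y) : RLE R n Z :=
  fun l i hi => hz3 (R l).H hT i (hY l i hi) (hX l _ (by omega))

lemma RGE.one {n : ℤ} (hY : RGE R n Y) (hZ : RGE R (n - 1) Z) : RGE R n X :=
  fun l i hi => hz1 (R l).H hT i (hY l i hi) (hZ l _ (by omega))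

lemma surj1 (l : Λ) {j : ℤ} (hZ : IsZero ((R l).H.obj (Z⟦j⟧))) :
    Function.Surjective ((R l).H.map (f⟦j⟧')) :=
  (ModuleCat.epi_iff_surjective _).1 (hepi1 (R l).H hT j hZ)

lemma inj1 (l : Λ) {j : ℤ} (hZ : IsZero ((R l).H.obj (Z⟦j - 1⟧))) :
    Function.Injective ((R l).H.map (f⟦j⟧')) :=
  (ModuleCat.mono_iff_injective _).1 (hmono1 (R l).H hT j hZ)

lemma surj2 (l : Λ) {j : ℤ} (hX : IsZero ((R l).H.obj (X⟦j + 1⟧))) :
    Function.Surjective ((R l).H.map (g⟦j⟧')) :=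
  (ModuleCat.epi_iff_surjective _).1 (hepi2 (R l).H hT j hX)

lemma fib_zero (l : Λ) (n m : ℤ) (hn : n + 1 = m)
    (hY : IsZero ((R l).H.obj (Y⟦m⟧))) (hg : Function.Surjective ((R l).H.map (g⟦n⟧'))) :
    IsZero ((R l).H.obj (X⟦m⟧)) := by
  rw [ModuleCat.isZero_iff_subsingleton] at hY ⊢
  have key : ∀ c : (R l).H.obj (X⟦m⟧), c = 0 := fun c => by
    obtain ⟨a, ha⟩ := ex1 (R l).H hT n m hn c (Subsingleton.elim _ _)
    obtain ⟨b, rfl⟩ := hg a
    rw [← ha, cp23 (R l).H hT]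
  exact ⟨fun a b => by rw [key a, key b]⟩

end

lemma neg_surj {E' : Type w} [Field E'] (S : Realisation C E') {X Y : C} {f : X ⟶ Y} {n : ℤ}
    (h : Function.Injective (S.H.map ((-f)⟦n⟧'))) : Function.Injective (S.H.map (f⟦n⟧')) := by
  intro a b hab
  apply h
  have h1 : S.H.map ((-f)⟦n⟧') = -S.H.map (f⟦n⟧') := by rw [Functor.map_neg, Functor.map_neg]
  rw [h1]
  change -(S.H.map (f⟦n⟧') a) = -(S.H.map (f⟦n⟧') b)
  rw [hab]

variable [∀ l, CharZero (E l)] [MonoidalPreadditive C] [RightRigidCategory C] [IsTriangulated C]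
  {t : TStructure C} {l₀ : Λ} (hm : IsMotivic t (fun _ : Unit => R l₀))
  (hid : ∀ e : 𝟙_ C ⟶ 𝟙_ C, e ≫ e = e → e = 0 ∨ e = 𝟙 _)

include hm hid

lemma tle {n : ℤ} {X : C} (hX : RLE R n X) : t.IsLE X n :=
  ⟨(le_iff hm hid () n X).2 fun i hi => hX l₀ i hi⟩

lemma tge {n : ℤ} {X : C} (hX : RGE R n X) : t.IsGE X n :=
  ⟨(ge_iff hm hid () n X).2 fun i hi => hX l₀ i hi⟩

lemma even_n (l : Λ) {N : C} {n j : ℤ} (h1 : t.IsLE N n) (h2 : t.IsGE N n) (hj : Odd (j - n)) :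
    IsZero ((R l).H.obj (N⟦j⟧)) := by
  have h3 := even_heart (R l) hm hid (M := N⟦n⟧)
    ⟨t.isLE_shift N n n 0, t.isGE_shift N n n 0⟩ hj
  exact h3.of_iso ((R l).H.mapIso ((shiftFunctorAdd' C n (j - n) j (by omega)).app N))

/-- The image of a morphism between pure objects. -/
lemma image_n {S0 V0 : C} (θ : S0 ⟶ V0) (n : ℤ) (hS : RLE R n S0) (hS' : RGE R n S0)
    (hV : RLE R n V0) (hV' : RGE R n V0) :
    ∃ (I : C) (p : S0 ⟶ I) (i : I ⟶ V0), p ≫ i = θ ∧ RLE R n I ∧ RGE R n I ∧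
      (∀ l, Function.Surjective ((R l).H.map (p⟦n⟧'))) ∧
      (∀ l, Function.Injective ((R l).H.map (i⟦n⟧'))) := by
  obtain ⟨W, a, b, hW⟩ := distinguished_cocone_triangle θ
  obtain ⟨W', Q, hW1, hQ1, u, v, w, hT⟩ := t.exists_triangle W (n - 1) n (by ring)
  obtain ⟨I, i, dI, hI⟩ := distinguished_cocone_triangle₁ (a ≫ v)
  have O := someOctahedron (rfl : a ≫ v = a ≫ v) (rotD hW) (rotD hT) (rotD hI)
  obtain ⟨p, hp⟩ := (shiftFunctor C (1 : ℤ)).map_surjective O.m₁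
  have sS := tle hm hid hS
  have sS' := tge hm hid hS'
  have sV := tle hm hid hV
  have sV' := tge hm hid hV'
  have hW1' : t.IsLE W' (n - 1) := ⟨hW1⟩
  have hQ1' : t.IsGE Q n := ⟨hQ1⟩
  have W1 : t.IsLE W n := isLE3 hW (t.isLE_of_le S0 n (n + 1)) sV
  have W2 : t.IsGE W (n - 1) := isGE3 hW (by
    have e : n - 1 + 1 = n := by ring
    rw [e]; exact sS') (t.isGE_of_ge V0 (n - 1) n)
  have W3 : t.IsGE W' (n - 1) := isGE1 hT W2 (t.isGE_of_ge Q (n - 1 - 1) n)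
  have Q2 : t.IsLE Q n := isLE3 hT (t.isLE_of_le W' (n - 1) (n + 1)) W1
  have I1 : t.IsGE I n := isGE1 hI sV' (t.isGE_of_ge Q (n - 1) n)
  have I2 : t.IsLE I n := by
    have h1 : t.IsLE (S0⟦(1 : ℤ)⟧) (n - 1) := t.isLE_shift S0 n 1 (n - 1)
    have h2 : t.IsLE (W'⟦(1 : ℤ)⟧) (n - 1 - 1) := t.isLE_shift W' (n - 1) 1 (n - 1 - 1)
    have h3 : t.IsLE (W'⟦(1 : ℤ)⟧) (n - 1) := t.isLE_of_le _ (n - 1 - 1) (n - 1)
    have h4 : t.IsLE (I⟦(1 : ℤ)⟧) (n - 1) := isLE2 O.mem h1 h3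
    exact t.isLE_of_shift I n 1 (n - 1)
  have hzI : ∀ l (j : ℤ), j ≠ n → IsZero ((R l).H.obj (I⟦j⟧)) := by
    intro l j hj
    rcases Int.even_or_odd (j - n) with h | h
    · refine hz1 (R l).H hI j ?_ (even_n hm hid l Q2 hQ1' ?_)
      · rcases lt_or_gt_of_ne hj with h' | h'
        · exact hV' l j h'
        · exact hV l j h'
      · have : j - 1 - n = (j - n) - 1 := by ring
        rw [this]
        exact h.sub_odd odd_one
    · exact even_n hm hid l I2 I1 h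
  refine ⟨I, p, i, ?_, fun l j hj => hzI l j (by omega), fun l j hj => hzI l j (by omega),
    fun l => ?_, fun l => ?_⟩
  · apply (shiftFunctor C (1 : ℤ)).map_injective
    have h1 : O.m₁ ≫ (-i⟦(1 : ℤ)⟧') = -θ⟦(1 : ℤ)⟧' := O.comm₂
    rw [Functor.map_comp, hp]
    rw [Preadditive.comp_neg] at h1
    exact neg_injective h1
  · have h1 : IsZero ((R l).H.obj (W'⟦(1 : ℤ)⟧⟦n - 1⟧)) := by
      have h2 : IsZero ((R l).H.obj (W'⟦n⟧)) := even_n hm hid l hW1' W3 (by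
        have : n - (n - 1) = 1 := by ring
        rw [this]
        exact odd_one)
      exact h2.of_iso ((R l).H.mapIso
        ((shiftFunctorAdd' C 1 (n - 1) n (by omega)).app W').symm)
    have h3 := surj1 O.mem l h1
    rw [← hp] at h3
    intro x
    let ea := (R l).H.mapIso ((shiftFunctorAdd' C 1 (n - 1) n (by omega)).app I)
    obtain ⟨y, hy⟩ := h3 (ea.hom x)
    let eb := (R l).H.mapIso ((shiftFunctorAdd' C 1 (n - 1) n (by omega)).app S0)
    refine ⟨eb.inv y, ?_⟩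
    have h4 : eb.inv ≫ (R l).H.map (p⟦n⟧') =
        (R l).H.map ((p⟦(1 : ℤ)⟧')⟦n - 1⟧') ≫ ea.inv := by
      simp only [ea, eb, Functor.mapIso_inv, ← Functor.map_comp]
      congr 1
      exact ((shiftFunctorAdd' C 1 (n - 1) n (by omega)).inv.naturality p).symm
    have h5 := LinearMap.congr_fun (congrArg ModuleCat.Hom.hom h4) y
    have h6 : (R l).H.map (p⟦n⟧') (eb.inv y) =
      ea.inv ((R l).H.map ((p⟦(1 : ℤ)⟧')⟦n - 1⟧') y) := h5
    rw [h6, hy]
    exact LinearMap.congr_fun (congrArg ModuleCat.Hom.hom ea.hom_inv_id) x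
  · refine inj1 hI l (even_n hm hid l Q2 hQ1' ?_)
    have : n - 1 - n = -1 := by ring
    rw [this]
    exact ⟨-1, by ring⟩

end

end Pool.Agent.X307.MT
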