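import Pool.Agent.X307.MT.Clos

/-!
# Closure under extensions, direct summands and shifts
-/

set_option autoImplicit false
set_option linter.unusedSectionVars false
set_option linter.unusedSimpArgs false
set_option backward.isDefEq.respectTransparency false
set_option backward.defeqAttrib.useBackward true

open CategoryTheory Limits MonoidalCategory Pretriangulated Triangulated

namespace Pool.Agent.X307.MT

open Pool.Agent.Y116.MT

universe v u w

section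

variable {C : Type u} [Category.{v} C] [Preadditive C] [HasZeroObject C] [HasShift C ℤ]
  [∀ n : ℤ, (shiftFunctor C n).Additive] [Pretriangulated C] [MonoidalCategory C]
  [SymmetricCategory C] [TensorTriangulated C]
  {Λ : Type*} {E : Λ → Type w} [∀ l, Field (E l)] {R : ∀ l, Realisation C (E l)}
  [∀ l, CharZero (E l)] [MonoidalPreadditive C] [RightRigidCategory C] [IsTriangulated C]
  {t : TStructure C} {l₀ : Λ} (hm : IsMotivic t (fun _ : Unit => R l₀))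
  (hid : ∀ e : 𝟙_ C ⟶ 𝟙_ C, e ≫ e = e → e = 0 ∨ e = 𝟙 _)

include hm hid

/-- **Closure under extensions.** -/
theorem tr_ext {X Y Z : C} {f : X ⟶ Y} {g : Y ⟶ Z} {h : Z ⟶ X⟦(1 : ℤ)⟧}
    (hT : Triangle.mk f g h ∈ distTriang C) (hX : ∀ n, TrAt R n X) (hZ : ∀ n, TrAt R n Z)
    (n : ℤ) : TrAt R n Y := by
  obtain ⟨Zs, Zb, zs, zb, zd, hZn, kZs, kZb⟩ := hZ n
  obtain ⟨Z1, Z2, z1, z2, zd1, hZ1, kZ1, kZ2'⟩ := hZ (n - 1)
  obtain ⟨Xs, Xb, xs, xb, xd, hXn, kXs, kXb⟩ := hX n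
  obtain ⟨X1, X2, x1, x2, xd1, hX1, kX1, kX2⟩ := hX (n + 1)
  have kZ2 : RGE R n Z2 := by
    have e : n - 1 + 1 = n := by ring
    rw [e] at kZ2'; exact kZ2'
  -- the object S0
  have a1 : z1 ≫ zb = 0 :=
    t.zero_of_isLE_of_isGE _ (n - 1) (n + 1) (by omega) (tle hm hid kZ1) (tge hm hid kZb)
  obtain ⟨j1, hj1⟩ := ce2 hZn z1 a1
  obtain ⟨S0, q0, s0d, hS0⟩ := distinguished_cocone_triangle j1
  have O1 := someOctahedron hj1.symm hS0 hZn hZ1
  have kS' : RGE R n S0 := RGE.one O1.mem kZ2 (kZb.mono (by omega))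
  have kS : RLE R n S0 := RLE.three hS0 (kZ1.mono (by omega)) kZs
  have sq0 : ∀ l, Function.Surjective ((R l).H.map (q0⟦n⟧')) := fun l =>
    surj2 hS0 l (kZ1 l _ (by omega))
  -- the object V0
  have a2 : xs ≫ x2 = 0 :=
    t.zero_of_isLE_of_isGE _ n (n + 1 + 1) (by omega) (tle hm hid kXs) (tge hm hid kX2)
  obtain ⟨j2, hj2⟩ := ye2 hXn x2 a2
  obtain ⟨U, u, ud, hU⟩ := distinguished_cocone_triangle₁ j2
  have O2 := someOctahedron hj2.symm (rotD hXn) (rotD hU) (rotD hX1)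
  have kV : RLE R n (U⟦(1 : ℤ)⟧) := by
    refine RLE.three O2.mem ?_ (kX1.shift (by ring))
    exact (kXs.shift (a := 1) (n' := n - 1) (by ring)).mono (by omega)
  have kU : RGE R (n + 1) U := RGE.one hU kXb (kX2.mono (by omega))
  have kV' : RGE R n (U⟦(1 : ℤ)⟧) := kU.shift (by ring)
  -- the map c
  have a3 : j1 ≫ zs ≫ h ≫ xb⟦(1 : ℤ)⟧' = 0 :=
    t.zero_of_isLE_of_isGE _ (n - 1) n (by omega) (tle hm hid kZ1)
      (tge hm hid (kXb.shift (by ring)))
  obtain ⟨c', hc'⟩ := ye2 hS0 _ a3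
  have a4 : c' ≫ (-j2⟦(1 : ℤ)⟧') = 0 :=
    t.zero_of_isLE_of_isGE _ n (n + 1) (by omega) (tle hm hid kS)
      (tge hm hid (kX2.shift (by ring)))
  obtain ⟨θ', hθ'⟩ := ce2 (rotD (rotD (rotD hU))) c' a4
  have hθ : c' = (-θ') ≫ u⟦(1 : ℤ)⟧' := by
    rw [hθ']; simp
  obtain ⟨I, p, i, hpi, kI, kI', sp, ii⟩ := image_n hm hid (-θ') n kS kS' kV kV'
  have ju : ∀ l, Function.Injective ((R l).H.map ((u⟦(1 : ℤ)⟧')⟦n⟧')) := fun l =>
    neg_surj (R l) (inj1 (rotD (rotD (rotD hU))) l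
      ((kX2.shift (a := 1) (n' := n + 1) (by ring)) l _ (by omega)))
  -- the fibre
  obtain ⟨Z', z', dz, hZ'⟩ := distinguished_cocone_triangle₁ (q0 ≫ p)
  have sσ : ∀ l, Function.Surjective ((R l).H.map ((q0 ≫ p)⟦n⟧')) := fun l => by
    rw [Hcomp]
    exact (sp l).comp (sq0 l)
  have kZ' : RLE R n Z' := by
    intro l j hj
    refine fib_zero hZ' l (j - 1) j (by ring) (kZs l j hj) ?_
    by_cases h1 : j = n + 1
    · subst h1
      have e : n + 1 - 1 = n := by ring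
      rw [e]
      exact sσ l
    · have h2 := kI l (j - 1) (by omega)
      rw [ModuleCat.isZero_iff_subsingleton] at h2
      exact fun x => ⟨0, Subsingleton.elim _ _⟩
  have a5 : ((z' ≫ zs) ≫ h) ≫ (-xb⟦(1 : ℤ)⟧') = 0 := by
    have e1 : z' ≫ zs ≫ h ≫ xb⟦(1 : ℤ)⟧' = 0 := by
      rw [hc', hθ, ← hpi]
      have e2 := comp12 hZ'
      rw [Category.assoc, ← Category.assoc q0, ← Category.assoc z', e2, zero_comp]
    rw [Preadditive.comp_neg, Category.assoc, Category.assoc, e1, neg_zero]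
  obtain ⟨d', hd'⟩ := ce2 (rotD (rotD (rotD hXn))) _ a5
  have hd : (-d') ≫ xs⟦(1 : ℤ)⟧' = (z' ≫ zs) ≫ h := by
    rw [hd']; simp
  obtain ⟨Y', f', g', hY'⟩ := distinguished_cocone_triangle₂ (-d')
  obtain ⟨y, hy1, hy2⟩ := complete_distinguished_triangle_morphism₂ _ _ hY' hT xs (z' ≫ zs) hd
  obtain ⟨Y'', y2, y3, hy⟩ := distinguished_cocone_triangle y
  have kY' : RLE R n Y' := RLE.two hY' kXs kZ'
  refine ⟨Y', Y'', y, y2, y3, hy, kY', fun l j hj => ?_⟩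
  -- the four lemmas
  have sxs : ∀ j : ℤ, j ≤ n → Function.Surjective ((R l).H.map (xs⟦j⟧')) := fun j hj =>
    surj1 hXn l (kXb l j (by omega))
  have ixs : ∀ j : ℤ, j ≤ n + 1 → Function.Injective ((R l).H.map (xs⟦j⟧')) := fun j hj =>
    inj1 hXn l (kXb l _ (by omega))
  have szs : ∀ j : ℤ, j ≤ n → Function.Surjective ((R l).H.map (zs⟦j⟧')) := fun j hj =>
    surj1 hZn l (kZb l j (by omega))
  have izs : ∀ j : ℤ, j ≤ n + 1 → Function.Injective ((R l).H.map (zs⟦j⟧')) := fun j hj =>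
    inj1 hZn l (kZb l _ (by omega))
  refine cone_zero (R l).H hy j (j + 1) rfl ?_ ?_
  · refine four_epi (R l).H hT hY' hy1 hy2 hd j (j + 1) rfl (sxs j (by omega))
      (ixs _ (by omega)) (fun c hc => ?_)
    obtain ⟨s, rfl⟩ := szs j (by omega) c
    have hσ : (R l).H.map ((q0 ≫ p)⟦j⟧') s = 0 := by
      by_cases h1 : j = n
      · subst h1
        apply ii l
        apply ju l
        rw [map_zero, map_zero]
        have e1 : zs ≫ h ≫ xb⟦(1 : ℤ)⟧' = (q0 ≫ p) ≫ i ≫ u⟦(1 : ℤ)⟧' := by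
          rw [hc', hθ, ← hpi]
          simp only [Category.assoc]
        have e2 : (R l).H.map (zs⟦j⟧') ≫ (R l).H.map (h⟦j⟧') ≫
            (R l).H.map ((xb⟦(1 : ℤ)⟧')⟦j⟧') = (R l).H.map ((q0 ≫ p)⟦j⟧') ≫
            (R l).H.map (i⟦j⟧') ≫ (R l).H.map ((u⟦(1 : ℤ)⟧')⟦j⟧') := by
          rw [← Hcomp, ← Hcomp, ← Hcomp, ← Hcomp, e1]
        have e3 := LinearMap.congr_fun (congrArg ModuleCat.Hom.hom e2) s
        have e4 : (R l).H.map ((xb⟦(1 : ℤ)⟧')⟦j⟧')
            ((R l).H.map (h⟦j⟧') ((R l).H.map (zs⟦j⟧') s)) =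
            (R l).H.map ((u⟦(1 : ℤ)⟧')⟦j⟧') ((R l).H.map (i⟦j⟧')
              ((R l).H.map ((q0 ≫ p)⟦j⟧') s)) := e3
        rw [← e4]
        have e5 : (R l).H.map (h⟦j⟧') ((R l).H.map (zs⟦j⟧') s) = 0 := by
          let ea := (R l).H.mapIso ((shiftFunctorAdd' C 1 j (j + 1) (by omega)).app X).symm
          have e6 : ea.hom ((R l).H.map (h⟦j⟧') ((R l).H.map (zs⟦j⟧') s)) = 0 := hc
          have e7 := congrArg (fun x => ea.inv x) e6
          have e8 := LinearMap.congr_fun (congrArg ModuleCat.Hom.hom ea.hom_inv_id)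
            ((R l).H.map (h⟦j⟧') ((R l).H.map (zs⟦j⟧') s))
          refine e8.symm.trans (e7.trans ?_)
          exact map_zero _
        rw [e5, map_zero]
      · have h2 := kI' l j (by omega)
        rw [ModuleCat.isZero_iff_subsingleton] at h2
        exact Subsingleton.elim _ _
    obtain ⟨u', hu'⟩ := ex2 (R l).H hZ' j s hσ
    refine ⟨u', ?_⟩
    rw [Hcomp, ← hu']
    rfl
  · by_cases h1 : j = n
    · subst h1
      have h2 := kY' l (j + 1) (by omega)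
      rw [ModuleCat.isZero_iff_subsingleton] at h2
      exact fun a b _ => h2.elim a b
    · have iz : Function.Injective ((R l).H.map ((z' ≫ zs)⟦j + 1⟧')) := by
        rw [Hcomp]
        exact (izs _ (by omega)).comp (inj1 hZ' l (kI' l _ (by omega)))
      have sz : Function.Surjective ((R l).H.map ((z' ≫ zs)⟦j⟧')) := by
        rw [Hcomp]
        exact (szs _ (by omega)).comp (surj1 hZ' l (kI' l _ (by omega)))
      exact four_mono (R l).H hT hY' hy1 hy2 hd j (j + 1) rfl iz (ixs _ (by omega)) sz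

omit [∀ l, CharZero (E l)] hm hid in
/-- Closure under shifts. -/
lemma tr_shift {X : C} (hX : ∀ n, TrAt R n X) (a : ℤ) (n : ℤ) : TrAt R n (X⟦a⟧) := by
  obtain ⟨A, B, f, g, h, hT, kA, kB⟩ := hX (n + a)
  have hT' := Triangle.shift_distinguished _ hT a
  refine ⟨A⟦a⟧, B⟦a⟧, _, _, _, hT', kA.shift (by ring), kB.shift (by ring)⟩

/-- Closure under direct summands. -/
lemma tr_retract {X Y : C} (i : X ⟶ Y) (r : Y ⟶ X) (hir : i ≫ r = 𝟙 X)
    (hY : ∀ n, TrAt R n Y) (n : ℤ) : TrAt R n X := by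
  obtain ⟨A, B, f, g, h, hT, kA, kB⟩ := hY n
  obtain ⟨A', B', hA, hB, f', g', h', hT'⟩ := t.exists_triangle X n (n + 1) rfl
  have hA' : t.IsLE A' n := ⟨hA⟩
  have hB' : t.IsGE B' (n + 1) := ⟨hB⟩
  have sA := tle hm hid kA
  have sB := tge hm hid kB
  have a1 : (f' ≫ i) ≫ g = 0 := t.zero_of_isLE_of_isGE _ n (n + 1) (by omega) hA' sB
  obtain ⟨α, hα⟩ := ce2 hT _ a1
  have a2 : (f ≫ r) ≫ g' = 0 := t.zero_of_isLE_of_isGE _ n (n + 1) (by omega) sA hB'
  obtain ⟨β, hβ⟩ := ce2 hT' _ a2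
  have h1 : α ≫ β = 𝟙 A' := by
    have h2 : (α ≫ β - 𝟙 A') ≫ f' = 0 := by
      rw [Preadditive.sub_comp, Category.assoc, ← hβ, ← Category.assoc, ← hα, Category.assoc,
        hir, Category.comp_id, Category.id_comp, sub_self]
    obtain ⟨k, hk⟩ := ce2 (inv_rot_of_distTriang _ hT') _ h2
    have h3 : k = 0 := t.zero_of_isLE_of_isGE _ n (n + 2) (by omega) hA'
      (t.isGE_shift B' (n + 1) (-1) (n + 2))
    rw [h3, zero_comp] at hk
    exact sub_eq_zero.1 hk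
  have a3 : f ≫ (r ≫ g') = 0 := t.zero_of_isLE_of_isGE _ n (n + 1) (by omega) sA hB'
  obtain ⟨γ, hγ⟩ := ye2 hT _ a3
  have a4 : f' ≫ (i ≫ g) = 0 := t.zero_of_isLE_of_isGE _ n (n + 1) (by omega) hA' sB
  obtain ⟨ε, hε⟩ := ye2 hT' _ a4
  have h2 : ε ≫ γ = 𝟙 B' := by
    have h2 : g' ≫ (ε ≫ γ - 𝟙 B') = 0 := by
      rw [Preadditive.comp_sub, ← Category.assoc, ← hε, Category.assoc, ← hγ, ← Category.assoc,
        hir, Category.id_comp, Category.comp_id, sub_self]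
    obtain ⟨k, hk⟩ := ye3 hT' _ h2
    have h3 : k = 0 := t.zero_of_isLE_of_isGE _ (n - 1) (n + 1) (by omega)
      (t.isLE_shift A' n 1 (n - 1)) hB'
    rw [h3, comp_zero] at hk
    exact sub_eq_zero.1 hk
  refine ⟨A', B', f', g', h', hT', fun l j hj => ?_, fun l j hj => ?_⟩
  · rw [IsZero.iff_id_eq_zero, ← Hid, ← h1, Hcomp, (kA l j hj).eq_of_tgt
      ((R l).H.map (α⟦j⟧')) 0, zero_comp]
  · rw [IsZero.iff_id_eq_zero, ← Hid, ← h2, Hcomp, (kB l j hj).eq_of_tgt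
      ((R l).H.map (ε⟦j⟧')) 0, zero_comp]

end

end Pool.Agent.X307.MT
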