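import Pool.Agent.X307.MT.Defs
import Pool.Agent.Y116.MT.Mot

/-!
# A criterion for the existence of a motivic t-structure
-/

set_option autoImplicit false
set_option linter.unusedSectionVars false
set_option linter.unusedSimpArgs false
set_option backward.isDefEq.respectTransparency false
set_option backward.defeqAttrib.useBackward true

open CategoryTheory Limits MonoidalCategory Pretriangulated Triangulated

namespace Pool.Agent.X307.MT

open Pool.Agent.Y116.MT

universe v u w

section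

variable {C : Type u} [Category.{v} C] [Preadditive C] [HasZeroObject C] [HasShift C ℤ]
  [∀ n : ℤ, (shiftFunctor C n).Additive] [Pretriangulated C] [MonoidalCategory C]
  [SymmetricCategory C] [TensorTriangulated C]
  {Λ : Type*} {E : Λ → Type w} [∀ l, Field (E l)] {R : ∀ l, Realisation C (E l)}

lemma RLE.shift {n a n' : ℤ} (h : a + n' = n) {X : C} (hX : RLE R n X) : RLE R n' (X⟦a⟧) :=
  fun l i hi => (hX l (a + i) (by omega)).of_iso
    ((R l).H.mapIso ((shiftFunctorAdd C a i).app X).symm)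

lemma RGE.shift {n a n' : ℤ} (h : a + n' = n) {X : C} (hX : RGE R n X) : RGE R n' (X⟦a⟧) :=
  fun l i hi => (hX l (a + i) (by omega)).of_iso
    ((R l).H.mapIso ((shiftFunctorAdd C a i).app X).symm)

instance (n : ℤ) : (RLE R n).IsClosedUnderIsomorphisms where
  of_iso e hX := fun l i hi =>
    (hX l i hi).of_iso ((R l).H.mapIso ((shiftFunctor C i).mapIso e.symm))

instance (n : ℤ) : (RGE R n).IsClosedUnderIsomorphisms where
  of_iso e hX := fun l i hi =>
    (hX l i hi).of_iso ((R l).H.mapIso ((shiftFunctor C i).mapIso e.symm))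

/-- Orthogonality is automatic. -/
lemma orth [IsTriangulated C] (hd : Detects R) (ht : HasTruncations R) {A B : C} (f : A ⟶ B)
    (hA : RLE R 0 A) (hB : RGE R 1 B) : f = 0 := by
  obtain ⟨F, a, b, hF⟩ := distinguished_cocone_triangle₁ f
  obtain ⟨K, V, k, v, w, hKF, hK, hV⟩ := ht F
  obtain ⟨Z, p, d, hZ⟩ := distinguished_cocone_triangle (k ≫ a)
  have O := someOctahedron (rfl : k ≫ a = k ≫ a) hKF hF hZ
  have hZ0 : IsZero Z := by
    apply hd
    intro l i
    by_cases hi : i < 1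
    · exact hz2 (R l).H O.mem i (hV l i hi) (hB l i hi)
    · exact hz3 (R l).H hZ i (hA l i (by omega)) (hK l _ (by omega))
  have h1 : IsIso (k ≫ a) := isIso1_of_isZero3 hZ hZ0
  rw [← cancel_epi (k ≫ a), Category.assoc, comp12 hF, comp_zero, comp_zero]

/-- The t-structure defined by the realisations. -/
def tOf [IsTriangulated C] (hd : Detects R) (ht : HasTruncations R) : TStructure C where
  le := RLE R
  ge := RGE R
  le_shift _ _ _ h _ hX := RLE.shift h hX
  ge_shift _ _ _ h _ hX := RGE.shift h hX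
  zero' _ _ f hX hY := orth hd ht f hX hY
  le_zero_le _ hX := fun l i hi => hX l i (by omega)
  ge_one_le _ hX := fun l i hi => hX l i (by omega)
  exists_triangle_zero_one X := by
    obtain ⟨A, B, f, g, h, hT, hA, hB⟩ := ht X
    exact ⟨A, B, hA, hB, f, g, h, hT⟩

lemma RLE.tensor {X Y : C} (hX : RLE R 0 X) (hY : RLE R 0 Y) : RLE R 0 (X ⊗ Y) := by
  intro l n hn
  have h0 : IsZero ((R l).H.obj (X ⊗ Y⟦n⟧)) := by
    rw [ModuleCat.isZero_iff_subsingleton]
    have h1 : ∀ i : ℤ, Subsingleton ((R l).H.obj (X⟦i⟧) ⊗ (R l).H.obj (Y⟦n⟧⟦-i⟧) :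
        ModuleCat.{w} (E l)) := by
      intro i
      by_cases hi : 0 < i
      · exact tensor_subsingleton_left (hX l i hi)
      · exact tensor_subsingleton_right ((hY l (n + -i) (by omega)).of_iso
          ((R l).H.mapIso ((shiftFunctorAdd C n (-i)).app Y).symm))
    have h2 : Subsingleton (DirectSum ℤ (fun i : ℤ =>
        ((R l).H.obj (X⟦i⟧) ⊗ (R l).H.obj (Y⟦n⟧⟦-i⟧) : ModuleCat.{w} (E l)))) := by
      constructor
      intro x y
      ext i
      have := h1 i
      exact Subsingleton.elim _ _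
    exact ((R l).kunneth X (Y⟦n⟧)).2.subsingleton
  exact h0.of_iso ((R l).H.mapIso (rShift X Y n).symm)

lemma RGE.tensor {X Y : C} (hX : RGE R 0 X) (hY : RGE R 0 Y) : RGE R 0 (X ⊗ Y) := by
  intro l n hn
  have h0 : IsZero ((R l).H.obj (X ⊗ Y⟦n⟧)) := by
    rw [ModuleCat.isZero_iff_subsingleton]
    have h1 : ∀ i : ℤ, Subsingleton ((R l).H.obj (X⟦i⟧) ⊗ (R l).H.obj (Y⟦n⟧⟦-i⟧) :
        ModuleCat.{w} (E l)) := by
      intro i
      by_cases hi : i < 0
      · exact tensor_subsingleton_left (hX l i hi)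
      · exact tensor_subsingleton_right ((hY l (n + -i) (by omega)).of_iso
          ((R l).H.mapIso ((shiftFunctorAdd C n (-i)).app Y).symm))
    have h2 : Subsingleton (DirectSum ℤ (fun i : ℤ =>
        ((R l).H.obj (X⟦i⟧) ⊗ (R l).H.obj (Y⟦n⟧⟦-i⟧) : ModuleCat.{w} (E l)))) := by
      constructor
      intro x y
      ext i
      have := h1 i
      exact Subsingleton.elim _ _
    exact ((R l).kunneth X (Y⟦n⟧)).2.subsingleton
  exact h0.of_iso ((R l).H.mapIso (rShift X Y n).symm)

/-- The t-structure defined by the realisations is motivic. -/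
theorem tOf_motivic [IsTriangulated C] (hd : Detects R) (ht : HasTruncations R) :
    IsMotivic (tOf hd ht) R where
  nondeg_le X hX := hd X fun l i => hX (i - 1) l i (by omega)
  nondeg_ge X hX := hd X fun l i => hX (i + 1) l i (by omega)
  tensor_le X Y hX hY := RLE.tensor hX hY
  tensor_ge X Y hX hY := RGE.tensor hX hY
  exact_le l X hX i hi := hX l i hi
  exact_ge l X hX i hi := hX l i hi

section

variable [MonoidalPreadditive C] [RightRigidCategory C] [IsTriangulated C]
  {t : TStructure C} (hm : IsMotivic t R)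
  (hid : ∀ e : 𝟙_ C ⟶ 𝟙_ C, e ≫ e = e → e = 0 ∨ e = 𝟙 _)

include hm

lemma compat : TensorCompat t := ⟨hm.tensor_le, hm.tensor_ge⟩

lemma texact (l : Λ) : TExact t (R l) := ⟨hm.exact_le l, hm.exact_ge l⟩

lemma unitHrt : Hrt t (𝟙_ C) := unit_hrt (compat hm) hm.nondeg_le hm.nondeg_ge

include hid

theorem le_iff (l : Λ) (n : ℤ) (X : C) :
    t.le n X ↔ ∀ i : ℤ, n < i → IsZero ((R l).H.obj (X⟦i⟧)) :=
  ⟨fun h i hi => (texact hm l).isLE ⟨h⟩ i hi, fun h =>
    (isLE_of_H (compat hm) (texact hm l) (unitHrt hm) hid hm.nondeg_le hm.nondeg_ge h).le⟩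

theorem ge_iff (l : Λ) (n : ℤ) (X : C) :
    t.ge n X ↔ ∀ i : ℤ, i < n → IsZero ((R l).H.obj (X⟦i⟧)) :=
  ⟨fun h i hi => (texact hm l).isGE ⟨h⟩ i hi, fun h =>
    (isGE_of_H (compat hm) (texact hm l) (unitHrt hm) hid hm.nondeg_le hm.nondeg_ge h).ge⟩

theorem isZero_of_R (l : Λ) {X : C} (hX : ∀ i : ℤ, IsZero ((R l).H.obj (X⟦i⟧))) : IsZero X :=
  conservative (compat hm) (texact hm l) (unitHrt hm) hid hm.nondeg_le hm.nondeg_ge hX

theorem isIso_of_R (l : Λ) : Conservative (R l) := by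
  intro X Y f hf
  obtain ⟨Z, q, δ, hT⟩ := distinguished_cocone_triangle f
  apply isIso1_of_isZero3 hT
  apply isZero_of_R hm hid l
  intro i
  have h1 := hf i
  have h2 := hf (i + 1)
  have h3 : (R l).H.map (q⟦i⟧') = 0 := by
    rw [← cancel_epi ((R l).H.map (f⟦i⟧')), ← Functor.map_comp, ← Functor.map_comp, comp12 hT,
      Functor.map_zero, Functor.map_zero, comp_zero]
  let _ := Functor.ShiftSequence.tautological (R l).H ℤ
  have h4 : Epi ((R l).H.map (q⟦i⟧')) :=
    ((R l).H.homologySequence_epi_shift_map_mor₂_iff _ hT i (i + 1) rfl).2 (by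
      have h5 : ((R l).H.homologySequenceδ (Triangle.mk f q δ) i (i + 1) rfl) ≫
          ((R l).H.shift (i + 1)).map f = 0 :=
        (R l).H.homologySequenceδ_comp _ hT i (i + 1) rfl
      have h6 : Mono (((R l).H.shift (i + 1)).map f) := by
        change Mono ((R l).H.map (f⟦i + 1⟧'))
        infer_instance
      rw [← cancel_mono (((R l).H.shift (i + 1)).map f), h5, zero_comp])
  rw [IsZero.iff_id_eq_zero, ← cancel_epi ((R l).H.map (q⟦i⟧')), h3, zero_comp, zero_comp]

theorem faithfulHrt (l : Λ) {M N : C} (hM : Hrt t M) (hN : Hrt t N) (f : M ⟶ N)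
    (hf : (R l).H.map f = 0) : f = 0 :=
  faithful_heart (compat hm) (texact hm l) (unitHrt hm) hid hM hN f hf

theorem bdd (l : Λ) (X : C) : ∃ N : ℕ, t.le N X ∧ t.ge (-N) X := by
  obtain ⟨N, h1, h2⟩ := bounded_of_H (compat hm) (texact hm l) (unitHrt hm) hid hm.nondeg_le
    hm.nondeg_ge X
  exact ⟨N, h1.le, h2.ge⟩

theorem exists_crit [Nonempty Λ] : Detects R ∧ HasTruncations R := by
  obtain ⟨l₀⟩ := ‹Nonempty Λ›
  refine ⟨fun X hX => isZero_of_R hm hid l₀ (hX l₀), fun X => ?_⟩
  obtain ⟨A, B, hA, hB, f, g, h, hT⟩ := t.exists_triangle_zero_one X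
  exact ⟨A, B, f, g, h, hT, fun l i hi => (texact hm l).isLE ⟨hA⟩ i hi,
    fun l i hi => (texact hm l).isGE ⟨hB⟩ i hi⟩

end

end

end Pool.Agent.X307.MT
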