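import Pool.Agent.X307.MT.Tw

/-!
# Decomposition of objects with hard Lefschetz isomorphisms
-/

set_option autoImplicit false
set_option linter.unusedSectionVars false
set_option linter.unusedSimpArgs false
set_option backward.isDefEq.respectTransparency false
set_option backward.defeqAttrib.useBackward true

open CategoryTheory Limits MonoidalCategory Pretriangulated Triangulated ZeroObject

namespace Pool.Agent.X307.MT

open Pool.Agent.Y116.MT

universe v u w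

section

variable {C : Type u} [Category.{v} C] [Preadditive C] [HasZeroObject C] [HasShift C ℤ]
  [∀ n : ℤ, (shiftFunctor C n).Additive] [Pretriangulated C] [MonoidalCategory C]
  [SymmetricCategory C] [TensorTriangulated C]
  {Λ : Type*} {E : Λ → Type w} [∀ l, Field (E l)] {R : ∀ l, Realisation C (E l)}
  {t : TStructure C}

/-- `X` has a direct summand, concentrated in degree `n`, with the same cohomology of degree `n`. -/
def Piece (t : TStructure C) (R : ∀ l, Realisation C (E l)) (X : C) (n : ℤ) : Prop :=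
  ∃ (M : C) (a : M ⟶ X) (b : X ⟶ M), t.IsLE M n ∧ t.IsGE M n ∧ a ≫ b = 𝟙 M ∧
    ∀ l, IsIso ((R l).H.map (b⟦n⟧'))

lemma isIso_of_zeros {D : Type*} [Category D] [HasZeroMorphisms D] {X Y : D} (f : X ⟶ Y)
    (hX : IsZero X) (hY : IsZero Y) : IsIso f :=
  ⟨0, hX.eq_of_src _ _, hY.eq_of_src _ _⟩

lemma zero_LE (t : TStructure C) {Z : C} (hZ : IsZero Z) (n : ℤ) : t.IsLE Z n := by
  rw [t.isLE_iff_orthogonal n (n + 1) rfl]
  intro Y f _
  exact hZ.eq_of_src _ _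

lemma zero_GE (t : TStructure C) {Z : C} (hZ : IsZero Z) (n : ℤ) : t.IsGE Z n := by
  rw [t.isGE_iff_orthogonal (n - 1) n (by omega)]
  intro Y f _
  exact hZ.eq_of_tgt _ _

section

variable {E' : Type w} [Field E'] (S : Realisation C E') {X Y Z : C} {f : X ⟶ Y} {g : Y ⟶ Z}
  {h : Z ⟶ X⟦(1 : ℤ)⟧} (hT : Triangle.mk f g h ∈ distTriang C)

include hT

lemma Hiso1 (n : ℤ) (h1 : IsZero (S.H.obj (Z⟦n - 1⟧))) (h2 : IsZero (S.H.obj (Z⟦n⟧))) :
    IsIso (S.H.map (f⟦n⟧')) := by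
  have := hmono1 S.H hT n h1
  have := hepi1 S.H hT n h2
  exact isIso_of_mono_of_epi _

lemma Hiso2 (n : ℤ) (h1 : IsZero (S.H.obj (X⟦n⟧))) (h2 : IsZero (S.H.obj (X⟦n + 1⟧))) :
    IsIso (S.H.map (g⟦n⟧')) := by
  have := hmono2 S.H hT n h1
  have := hepi2 S.H hT n h2
  exact isIso_of_mono_of_epi _

end

lemma Hcomp {E' : Type w} [Field E'] (S : Realisation C E') {X Y Z : C} (f : X ⟶ Y) (g : Y ⟶ Z)
    (n : ℤ) : S.H.map ((f ≫ g)⟦n⟧') = S.H.map (f⟦n⟧') ≫ S.H.map (g⟦n⟧') := by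
  rw [Functor.map_comp, Functor.map_comp]

lemma Hid {E' : Type w} [Field E'] (S : Realisation C E') (X : C) (n : ℤ) :
    S.H.map ((𝟙 X)⟦n⟧') = 𝟙 _ := by
  rw [CategoryTheory.Functor.map_id, CategoryTheory.Functor.map_id]

lemma Hiso_right {E' : Type w} [Field E'] (S : Realisation C E') {X Y : C} {f : X ⟶ Y} {g : Y ⟶ X}
    (hfg : f ≫ g = 𝟙 X) (n : ℤ) (hf : IsIso (S.H.map (f⟦n⟧'))) : IsIso (S.H.map (g⟦n⟧')) := by
  have h1 : IsIso (S.H.map (f⟦n⟧') ≫ S.H.map (g⟦n⟧')) := by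
    rw [← Hcomp, hfg, Hid]
    infer_instance
  exact IsIso.of_isIso_comp_left (S.H.map (f⟦n⟧')) _

lemma Hiso_left {E' : Type w} [Field E'] (S : Realisation C E') {X Y : C} {f : X ⟶ Y} {g : Y ⟶ X}
    (hfg : f ≫ g = 𝟙 X) (n : ℤ) (hg : IsIso (S.H.map (g⟦n⟧'))) : IsIso (S.H.map (f⟦n⟧')) := by
  have h1 : IsIso (S.H.map (f⟦n⟧') ≫ S.H.map (g⟦n⟧')) := by
    rw [← Hcomp, hfg, Hid]
    infer_instance
  exact IsIso.of_isIso_comp_right _ (S.H.map (g⟦n⟧'))

variable [MonoidalPreadditive C] [RightRigidCategory C] [IsTriangulated C]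
  (hm : IsMotivic t R) (hid : ∀ e : 𝟙_ C ⟶ 𝟙_ C, e ≫ e = e → e = 0 ∨ e = 𝟙 _)

include hm hid

lemma iso_of_deg (l₀ : Λ) {A D : C} {n : ℤ} (hA1 : t.IsLE A n) (hA2 : t.IsGE A n)
    (hD1 : t.IsLE D n) (hD2 : t.IsGE D n) (u : A ⟶ D) (hu : IsIso ((R l₀).H.map (u⟦n⟧'))) :
    IsIso u := by
  apply isIso_of_R hm hid l₀
  intro i
  rcases lt_trichotomy i n with h | h | h
  · exact isIso_of_zeros _ ((texact hm l₀).isGE hA2 i h) ((texact hm l₀).isGE hD2 i h)
  · subst h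
    exact hu
  · exact isIso_of_zeros _ ((texact hm l₀).isLE hA1 i h) ((texact hm l₀).isLE hD1 i h)

/-- The lowest and the highest cohomology split off. -/
lemma low_split (l₀ : Λ) {T T' : C} (eT : T ⊗ T' ≅ 𝟙_ C) (hT1 : t.IsLE T (-2))
    (hT2 : t.IsGE T (-2)) {X : C} {e : ℤ} {m : ℕ} (hX1 : t.IsGE X (e - m))
    (hX2 : t.IsLE X (e + m)) (L : X ⟶ twist T X m) (hL : IsIso ((R l₀).H.map (L⟦e - m⟧')))
    {A B : C} {f : A ⟶ X} {g : X ⟶ B} {h : B ⟶ A⟦(1 : ℤ)⟧}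
    (hAB : Triangle.mk f g h ∈ distTriang C) (hA : t.IsLE A (e - m)) (hB : t.IsGE B (e - m + 1))
    {X' D : C} {f' : X' ⟶ X} {g' : X ⟶ D} {h' : D ⟶ X'⟦(1 : ℤ)⟧}
    (hXD : Triangle.mk f' g' h' ∈ distTriang C) (hX' : t.IsLE X' (e + m - 1))
    (hD : t.IsGE D (e + m)) :
    (∃ r : X ⟶ A, f ≫ r = 𝟙 A) ∧ (∃ s : D ⟶ X, s ≫ g' = 𝟙 D) := by
  have hc := compat hm
  have hA2 : t.IsGE A (e - m) := isGE1 hAB hX1 (t.isGE_of_ge B (e - m - 1) (e - m + 1))
  have hD1 : t.IsLE D (e + m) := isLE3 hXD (t.isLE_of_le X' (e + m - 1) (e + m + 1)) hX2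
  have e1 : (e + m - 2 * m : ℤ) = e - m := by ring
  have hD2 : t.IsLE (twist T D m) (e - m) := by
    have := tw_LE hc hT1 hD1 m
    rwa [e1] at this
  have hD3 : t.IsGE (twist T D m) (e - m) := by
    have := tw_GE hc hT2 hD m
    rwa [e1] at this
  have e2 : (e + m - 1 - 2 * m : ℤ) = e - m - 1 := by ring
  have hX3 : t.IsLE (twist T X' m) (e - m - 1) := by
    have := tw_LE hc hT1 hX' m
    rwa [e2] at this
  obtain ⟨h'', hTw⟩ := tw_dist T hXD m
  have i1 : IsIso ((R l₀).H.map (f⟦e - m⟧')) :=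
    Hiso1 (R l₀) hAB _ ((texact hm l₀).isGE hB _ (by omega)) ((texact hm l₀).isGE hB _ (by omega))
  have i2 : IsIso ((R l₀).H.map ((twMap T g' m)⟦e - m⟧')) :=
    Hiso2 (R l₀) hTw _ ((texact hm l₀).isLE hX3 _ (by omega))
      ((texact hm l₀).isLE hX3 _ (by omega))
  have i3 : IsIso ((R l₀).H.map ((f ≫ L ≫ twMap T g' m)⟦e - m⟧')) := by
    rw [Hcomp, Hcomp]
    infer_instance
  have i4 : IsIso (f ≫ L ≫ twMap T g' m) := iso_of_deg hm hid l₀ hA hA2 hD2 hD3 _ i3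
  constructor
  · refine ⟨L ≫ twMap T g' m ≫ inv (f ≫ L ≫ twMap T g' m), ?_⟩
    have := IsIso.hom_inv_id (f ≫ L ≫ twMap T g' m)
    simpa only [Category.assoc] using this
  · obtain ⟨s, hs⟩ := twMap_surjective eT m (inv (f ≫ L ≫ twMap T g' m) ≫ f ≫ L)
    refine ⟨s, twMap_injective eT m ?_⟩
    rw [twMap_comp, hs, twMap_id]
    have := IsIso.inv_hom_id (f ≫ L ≫ twMap T g' m)
    simpa only [Category.assoc] using this

/-- **Decomposition.** -/
theorem pieces [Nonempty Λ] {T T' : C} (eT : T ⊗ T' ≅ 𝟙_ C) (hT1 : t.IsLE T (-2))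
    (hT2 : t.IsGE T (-2)) (e : ℤ) (m : ℕ) : ∀ X : C, t.IsGE X (e - m) → t.IsLE X (e + m) →
    (∀ k : ℕ, ∃ L : X ⟶ twist T X k, ∀ l, IsIso ((R l).H.map (L⟦e - k⟧'))) →
      ∀ n : ℤ, Piece t R X n := by
  obtain ⟨l₀⟩ := ‹Nonempty Λ›
  have hc := compat hm
  induction m with
  | zero =>
    intro X hX1 hX2 _ n
    have hX1' : t.IsGE X e := by simpa using hX1
    have hX2' : t.IsLE X e := by simpa using hX2
    by_cases hn : n = e
    · subst hn
      exact ⟨X, 𝟙 X, 𝟙 X, hX2', hX1', Category.comp_id _, fun l => by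
        rw [Hid]; infer_instance⟩
    · refine ⟨0, 0, 0, zero_LE t (isZero_zero C) n, zero_GE t (isZero_zero C) n,
        (isZero_zero C).eq_of_src _ _, fun l => isIso_of_zeros _ ?_ ?_⟩
      · rcases lt_or_gt_of_ne hn with h | h
        · exact (texact hm l).isGE hX1' n h
        · exact (texact hm l).isLE hX2' n h
      · exact (R l).H.map_isZero (isZero_shift (isZero_zero C) n)
  | succ m ih =>
    intro X hX1 hX2 hL n
    have ec : ((m + 1 : ℕ) : ℤ) = (m : ℤ) + 1 := by push_cast; rfl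
    obtain ⟨A, B, hA, hB, f, g, h, hAB⟩ :=
      t.exists_triangle X (e - (m + 1 : ℕ)) (e - (m + 1 : ℕ) + 1) rfl
    obtain ⟨X', D, hX', hD, f', g', h', hXD⟩ :=
      t.exists_triangle X (e + (m + 1 : ℕ) - 1) (e + (m + 1 : ℕ)) (by ring)
    have hA' : t.IsLE A (e - (m + 1 : ℕ)) := ⟨hA⟩
    have hB' : t.IsGE B (e - (m + 1 : ℕ) + 1) := ⟨hB⟩
    have hX'' : t.IsLE X' (e + (m + 1 : ℕ) - 1) := ⟨hX'⟩
    have hD' : t.IsGE D (e + (m + 1 : ℕ)) := ⟨hD⟩
    have hA2 : t.IsGE A (e - (m + 1 : ℕ)) :=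
      isGE1 hAB hX1 (t.isGE_of_ge B (e - (m + 1 : ℕ) - 1) (e - (m + 1 : ℕ) + 1))
    have hD1 : t.IsLE D (e + (m + 1 : ℕ)) :=
      isLE3 hXD (t.isLE_of_le X' (e + (m + 1 : ℕ) - 1) (e + (m + 1 : ℕ) + 1)) hX2
    obtain ⟨L0, hL0⟩ := hL (m + 1)
    obtain ⟨⟨r, hr⟩, ⟨s, hs⟩⟩ := low_split hm hid l₀ eT hT1 hT2 hX1 hX2 L0 (hL0 l₀) hAB hA' hB'
      hXD hX'' hD'
    have hfg' : f ≫ g' = 0 := t.zero_of_isLE_of_isGE _ _ _ (by omega) hA' hD'
    obtain ⟨g'', hg''⟩ := ye2 hAB g' hfg'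
    have hh : h = 0 := by
      have h1 : (f⟦(1 : ℤ)⟧') ≫ (r⟦(1 : ℤ)⟧') = 𝟙 _ := by
        rw [← Functor.map_comp, hr, CategoryTheory.Functor.map_id]
      rw [← Category.comp_id h, ← h1, ← Category.assoc, comp31 hAB, zero_comp]
    obtain ⟨sB, hsB⟩ := split3' hAB hh
    obtain ⟨X2, w, h2, hX2D⟩ := distinguished_cocone_triangle₁ g''
    have hs' : (s ≫ g) ≫ g'' = 𝟙 D := by rw [Category.assoc, ← hg'', hs]
    have hh2 : h2 = 0 := by
      rw [← Category.id_comp h2, ← hs', Category.assoc, comp23 hX2D, comp_zero]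
    obtain ⟨r', hr'⟩ := split3 hX2D hh2
    have hιπ : (w ≫ sB) ≫ (g ≫ r') = 𝟙 X2 := by
      rw [Category.assoc, reassoc_of% hsB, hr']
    have hX2a : t.IsGE X2 (e - (m : ℕ)) := by
      have h3 : t.IsGE B (e - (m : ℕ)) := by
        have e3 : (e - (m + 1 : ℕ) + 1 : ℤ) = e - (m : ℕ) := by push_cast; ring
        rw [← e3]; exact hB'
      exact isGE_retract h3 w r' hr'
    obtain ⟨ι', hι'⟩ := ce2 hXD (w ≫ sB) (by
      rw [hg'', Category.assoc, reassoc_of% hsB, comp12 hX2D])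
    have hX2b : t.IsLE X2 (e + (m : ℕ)) := by
      have h3 : t.IsLE X' (e + (m : ℕ)) := by
        have e3 : (e + (m + 1 : ℕ) - 1 : ℤ) = e + (m : ℕ) := by push_cast; ring
        rw [← e3]; exact hX''
      exact isLE_retract h3 ι' (f' ≫ g ≫ r') (by rw [← Category.assoc, ← hι', hιπ])
    -- the isomorphisms
    have k1 : ∀ l (j : ℤ), e - (m + 1 : ℕ) < j → IsIso ((R l).H.map (g⟦j⟧')) := fun l j hj =>
      Hiso2 (R l) hAB j ((texact hm l).isLE hA' _ hj) ((texact hm l).isLE hA' _ (by omega))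
    have k2 : ∀ l (j : ℤ), j < e + (m + 1 : ℕ) → IsIso ((R l).H.map (r'⟦j⟧')) := fun l j hj =>
      Hiso_right (R l) hr' j (Hiso1 (R l) hX2D j ((texact hm l).isGE hD' _ (by omega))
        ((texact hm l).isGE hD' _ hj))
    have k3 : ∀ l (j : ℤ), e - (m + 1 : ℕ) < j → j < e + (m + 1 : ℕ) →
        IsIso ((R l).H.map ((g ≫ r')⟦j⟧')) := fun l j h1 h2 => by
      have := k1 l j h1
      have := k2 l j h2
      rw [Hcomp]
      infer_instance
    have hL2 : ∀ k : ℕ, ∃ L : X2 ⟶ twist T X2 k, ∀ l, IsIso ((R l).H.map (L⟦e - k⟧')) := by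
      intro k
      by_cases hk : k < m + 1
      · obtain ⟨L, hL⟩ := hL k
        refine ⟨(w ≫ sB) ≫ L ≫ twMap T (g ≫ r') k, fun l => ?_⟩
        have j1 : IsIso ((R l).H.map ((w ≫ sB)⟦e - k⟧')) :=
          Hiso_left (R l) hιπ _ (k3 l _ (by omega) (by omega))
        have j2 := hL l
        obtain ⟨_, hTA⟩ := tw_dist T hAB k
        obtain ⟨_, hTD⟩ := tw_dist T hX2D k
        have a1 := tw_LE hc hT1 hA' k
        have a2 := tw_GE hc hT2 hD' k
        have j3 : IsIso ((R l).H.map ((twMap T g k)⟦e - k⟧')) :=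
          Hiso2 (R l) hTA _ ((texact hm l).isLE a1 _ (by omega))
            ((texact hm l).isLE a1 _ (by omega))
        have j4 : IsIso ((R l).H.map ((twMap T r' k)⟦e - k⟧')) :=
          Hiso_right (R l) (f := twMap T w k) (by rw [← twMap_comp, hr', twMap_id]) _
            (Hiso1 (R l) hTD _ ((texact hm l).isGE a2 _ (by omega))
              ((texact hm l).isGE a2 _ (by omega)))
        have j5 : IsIso ((R l).H.map ((twMap T (g ≫ r') k)⟦e - k⟧')) := by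
          rw [twMap_comp, Hcomp]
          infer_instance
        rw [Hcomp (R l) (w ≫ sB), Hcomp (R l) L]
        infer_instance
      · refine ⟨0, fun l => isIso_of_zeros _ ((texact hm l).isGE hX2a _ (by omega)) ?_⟩
        exact (texact hm l).isLE (tw_LE hc hT1 hX2b k) _ (by omega)
    by_cases hn1 : n = e - (m + 1 : ℕ)
    · subst hn1
      refine ⟨A, f, r, hA', hA2, hr, fun l => Hiso_right (R l) hr _ ?_⟩
      exact Hiso1 (R l) hAB _ ((texact hm l).isGE hB' _ (by omega))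
        ((texact hm l).isGE hB' _ (by omega))
    by_cases hn2 : n = e + (m + 1 : ℕ)
    · subst hn2
      refine ⟨D, s, g', hD1, hD', hs, fun l => ?_⟩
      exact Hiso2 (R l) hXD _ ((texact hm l).isLE hX'' _ (by omega))
        ((texact hm l).isLE hX'' _ (by omega))
    obtain ⟨M, a, b, hM1, hM2, hab, hb⟩ := ih X2 hX2a hX2b hL2 n
    refine ⟨M, a ≫ w ≫ sB, (g ≫ r') ≫ b, hM1, hM2, ?_, fun l => ?_⟩
    · have : (a ≫ w ≫ sB) ≫ (g ≫ r') ≫ b = a ≫ ((w ≫ sB) ≫ (g ≫ r')) ≫ b := by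
        simp only [Category.assoc]
      rw [this, hιπ, Category.id_comp, hab]
    · by_cases hn3 : e - (m + 1 : ℕ) < n ∧ n < e + (m + 1 : ℕ)
      · have := k3 l n hn3.1 hn3.2
        have := hb l
        rw [Hcomp]
        infer_instance
      · have hz : IsZero ((R l).H.obj (X2⟦n⟧)) := by
          by_cases h4 : e - (m + 1 : ℕ) < n
          · exact (texact hm l).isLE hX2b n (by omega)
          · exact (texact hm l).isGE hX2a n (by omega)
        have := hb l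
        refine isIso_of_zeros _ ?_ (hz.of_iso (asIso ((R l).H.map (b⟦n⟧'))).symm)
        by_cases h4 : e - (m + 1 : ℕ) < n
        · exact (texact hm l).isLE hX2 n (by omega)
        · exact (texact hm l).isGE hX1 n (by omega)

end

end Pool.Agent.X307.MT
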