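import Pool.Agent.Y116.MT.Deg

/-!
# Truncations with respect to realisations

Definitions used in the criterion for the existence of a motivic t-structure.
-/

set_option autoImplicit false

open CategoryTheory Limits MonoidalCategory Pretriangulated Triangulated

namespace Pool.Agent.X307.MT

open Pool.Agent.Y116.MT

universe v u w

section

variable {C : Type u} [Category.{v} C] [Preadditive C] [HasZeroObject C] [HasShift C ℤ]
  [∀ n : ℤ, (shiftFunctor C n).Additive] [Pretriangulated C] [MonoidalCategory C]
  [SymmetricCategory C] [TensorTriangulated C]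

/-- A realisation is conservative: a morphism which induces isomorphisms on all cohomology groups
is an isomorphism. -/
def Conservative {E : Type w} [Field E] (R : Realisation C E) : Prop :=
  ∀ (X Y : C) (f : X ⟶ Y), (∀ i : ℤ, IsIso (R.H.map (f⟦i⟧'))) → IsIso f

variable {Λ : Type*} {E : Λ → Type w} [∀ l, Field (E l)] (R : ∀ l, Realisation C (E l))

/-- The cohomology groups `H_l^i(X)` vanish for all `l` and all `i > n`. -/
def RLE (n : ℤ) : ObjectProperty C := fun X =>
  ∀ (l : Λ) (i : ℤ), n < i → IsZero ((R l).H.obj (X⟦i⟧))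

/-- The cohomology groups `H_l^i(X)` vanish for all `l` and all `i < n`. -/
def RGE (n : ℤ) : ObjectProperty C := fun X =>
  ∀ (l : Λ) (i : ℤ), i < n → IsZero ((R l).H.obj (X⟦i⟧))

/-- An object is zero if all its cohomology groups `H_l^i` vanish. -/
def Detects : Prop := ∀ X : C, (∀ (l : Λ) (i : ℤ), IsZero ((R l).H.obj (X⟦i⟧))) → IsZero X

/-- Every object `X` has a truncation: there is a distinguished triangle `A ⟶ X ⟶ B ⟶ A⟦1⟧` such
that all `H_l^i(A)` with `i > 0` and all `H_l^i(B)` with `i ≤ 0` vanish. -/
def HasTruncations : Prop := ∀ X : C, ∃ (A B : C) (f : A ⟶ X) (g : X ⟶ B)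
  (h : B ⟶ A⟦(1 : ℤ)⟧), Triangle.mk f g h ∈ distTriang C ∧ RLE R 0 A ∧ RGE R 1 B

end

end Pool.Agent.X307.MT
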