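import Pool.Agent.X307.MT.Defs2

/-!
# Generation by Chow motives, and Frobenius weights
-/

set_option autoImplicit false

open CategoryTheory Limits MonoidalCategory Pretriangulated Triangulated Polynomial

namespace Pool.Agent.X307.MT

open Pool.Agent.Y116.MT

universe v u w

section

variable {C : Type u} [Category.{v} C] [Preadditive C] [HasZeroObject C] [HasShift C ℤ]
  [∀ n : ℤ, (shiftFunctor C n).Additive] [Pretriangulated C]

/-- The thick triangulated subcategory generated by a class of objects: its objects are obtained
from the objects of the class by shifts, extensions and direct summands. -/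
inductive Generated (Chow : ObjectProperty C) : C → Prop
  | of (X : C) : Chow X → Generated Chow X
  | shift (X : C) (n : ℤ) : Generated Chow X → Generated Chow (X⟦n⟧)
  | ext (X Y Z : C) (f : X ⟶ Y) (g : Y ⟶ Z) (h : Z ⟶ X⟦(1 : ℤ)⟧) :
      Triangle.mk f g h ∈ distTriang C → Generated Chow X → Generated Chow Z → Generated Chow Y
  | retract (X Y : C) (i : X ⟶ Y) (r : Y ⟶ X) : i ≫ r = 𝟙 X → Generated Chow Y →
      Generated Chow X

end

section

variable {C : Type u} [Category.{v} C] [Preadditive C] [HasZeroObject C] [HasShift C ℤ]
  [∀ n : ℤ, (shiftFunctor C n).Additive] [Pretriangulated C] [MonoidalCategory C]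
  [SymmetricCategory C] [TensorTriangulated C]
  {Λ : Type*} {E : Λ → Type w} [∀ l, Field (E l)] [∀ l, CharZero (E l)]

/-- The rational polynomial `p` annihilates the endomorphism `f` of a vector space. -/
def KilledBy {F V : Type*} [Field F] [CharZero F] [AddCommGroup V] [Module F V]
    (f : Module.End F V) (p : ℚ[X]) : Prop :=
  aeval f (p.map (algebraMap ℚ F)) = 0

/-- The polynomial `p n` annihilates the action of the endomorphism `a` of `P` on `H_l^n(P)`, for
all `l` and `n`. -/
def Annihilates (R : ∀ l, Realisation C (E l)) (P : C) (a : P ⟶ P) (p : ℤ → ℚ[X]) : Prop :=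
  ∀ (l : Λ) (n : ℤ), KilledBy ((R l).H.map (a⟦n⟧')).hom (p n)

/-- Weights: a natural endomorphism `φ` of the identity functor (Frobenius, for motives over a
finite field) such that, for every Chow motive `P`, the eigenvalues of `φ` on `H_l^n(P)` and
`H_l^m(P)` are different for `n ≠ m`, and independent of `l` in the following sense: there are
rational polynomials `p n`, pairwise coprime, such that `p n` annihilates the action of `φ` on
`H_l^n(P)` for all `l` and `n`. (For Frobenius, let `p n` be the characteristic polynomial on
`H_l^n(P)`, by Deligne's theorems and Katz-Messing.) -/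
def FrobeniusWeights (Chow : ObjectProperty C) (R : ∀ l, Realisation C (E l))
    (φ : 𝟭 C ⟶ 𝟭 C) : Prop :=
  ∀ P : C, Chow P → ∃ p : ℤ → ℚ[X], (∀ i j : ℤ, i ≠ j → IsCoprime (p i) (p j)) ∧
    Annihilates R P (φ.app P) p

end

end Pool.Agent.X307.MT
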