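import Pool.Agent.X307.MT.Even

/-!
# Four lemmas for homological functors to vector spaces
-/

set_option autoImplicit false
set_option linter.unusedSectionVars false
set_option linter.unusedSimpArgs false
set_option backward.isDefEq.respectTransparency false
set_option backward.defeqAttrib.useBackward true

open CategoryTheory Limits MonoidalCategory Pretriangulated Triangulated

namespace Pool.Agent.X307.MT

open Pool.Agent.Y116.MT

universe v u w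

section

variable {C : Type u} [Category.{v} C] [Preadditive C] [HasZeroObject C] [HasShift C ℤ]
  [∀ n : ℤ, (shiftFunctor C n).Additive] [Pretriangulated C]
  {E : Type w} [Field E] (H : C ⥤ ModuleCat.{w} E) [H.IsHomological] [H.Additive]

section

variable {X Y Z : C} {f : X ⟶ Y} {g : Y ⟶ Z} {h : Z ⟶ X⟦(1 : ℤ)⟧}
  (hT : Triangle.mk f g h ∈ distTriang C)

/-- The connecting map. -/
noncomputable def dlt (h : Z ⟶ X⟦(1 : ℤ)⟧) (n m : ℤ) (hn : n + 1 = m) :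
    H.obj (Z⟦n⟧) ⟶ H.obj (X⟦m⟧) :=
  H.map (h⟦n⟧') ≫ H.map ((shiftFunctorAdd' C 1 n m (by omega)).inv.app X)

lemma dlt_nat {X' Z' : C} {h' : Z' ⟶ X'⟦(1 : ℤ)⟧} {x : X' ⟶ X} {z : Z' ⟶ Z}
    (c3 : h' ≫ x⟦(1 : ℤ)⟧' = z ≫ h) (n m : ℤ) (hn : n + 1 = m) :
    H.map (z⟦n⟧') ≫ dlt H h n m hn = dlt H h' n m hn ≫ H.map (x⟦m⟧') := by
  simp only [dlt, Category.assoc, ← Functor.map_comp]
  congr 1
  rw [← Category.assoc, ← Functor.map_comp, ← c3, Functor.map_comp, Category.assoc]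
  congr 1
  exact (shiftFunctorAdd' C 1 n m (by omega)).inv.naturality x

include hT

lemma ex2 (n : ℤ) (y : H.obj (Y⟦n⟧)) (hy : H.map (g⟦n⟧') y = 0) :
    ∃ x : H.obj (X⟦n⟧), H.map (f⟦n⟧') x = y := by
  let _ := Functor.ShiftSequence.tautological H ℤ
  exact (ShortComplex.moduleCat_exact_iff _).1 (H.homologySequence_exact₂ _ hT n) y hy

lemma ex3 (n m : ℤ) (hn : n + 1 = m) (z : H.obj (Z⟦n⟧)) (hz : dlt H h n m hn z = 0) :
    ∃ y : H.obj (Y⟦n⟧), H.map (g⟦n⟧') y = z := by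
  let _ := Functor.ShiftSequence.tautological H ℤ
  refine (ShortComplex.moduleCat_exact_iff _).1 (H.homologySequence_exact₃ _ hT n m hn) z ?_
  refine Eq.trans ?_ hz
  rfl

lemma ex1 (n m : ℤ) (hn : n + 1 = m) (x : H.obj (X⟦m⟧)) (hx : H.map (f⟦m⟧') x = 0) :
    ∃ z : H.obj (Z⟦n⟧), dlt H h n m hn z = x := by
  let _ := Functor.ShiftSequence.tautological H ℤ
  exact (ShortComplex.moduleCat_exact_iff _).1 (H.homologySequence_exact₁ _ hT n m hn) x hx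

lemma cp12 (n : ℤ) (x : H.obj (X⟦n⟧)) : H.map (g⟦n⟧') (H.map (f⟦n⟧') x) = 0 := by
  have h1 : H.map (f⟦n⟧') ≫ H.map (g⟦n⟧') = 0 := by
    rw [← Functor.map_comp, ← Functor.map_comp, comp12 hT, Functor.map_zero, Functor.map_zero]
  exact LinearMap.congr_fun (congrArg ModuleCat.Hom.hom h1) x

lemma cp23 (n m : ℤ) (hn : n + 1 = m) (y : H.obj (Y⟦n⟧)) :
    dlt H h n m hn (H.map (g⟦n⟧') y) = 0 := by
  have h1 : H.map (g⟦n⟧') ≫ dlt H h n m hn = 0 := by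
    have h0 : H.map (g⟦n⟧') ≫ H.map (h⟦n⟧') = 0 := by
      rw [← Functor.map_comp, ← Functor.map_comp, comp23 hT, Functor.map_zero, Functor.map_zero]
    rw [dlt, reassoc_of% h0, zero_comp]
  exact LinearMap.congr_fun (congrArg ModuleCat.Hom.hom h1) y

lemma cp31 (n m : ℤ) (hn : n + 1 = m) (z : H.obj (Z⟦n⟧)) :
    H.map (f⟦m⟧') (dlt H h n m hn z) = 0 := by
  have h1 : dlt H h n m hn ≫ H.map (f⟦m⟧') = 0 := by
    rw [dlt, Category.assoc, ← Functor.map_comp, ← (shiftFunctorAdd' C 1 n m (by omega)).inv.naturality f, ← Functor.map_comp, ← Category.assoc]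
    have h2 : (shiftFunctor C n).map h ≫ (shiftFunctor C (1 : ℤ) ⋙ shiftFunctor C n).map f = 0 := by
      rw [Functor.comp_map, ← Functor.map_comp, comp31 hT, Functor.map_zero]
    rw [h2, zero_comp, Functor.map_zero]
  exact LinearMap.congr_fun (congrArg ModuleCat.Hom.hom h1) z

end

lemma map_nat {X Y Z W : C} {a : X ⟶ Y} {b : Y ⟶ W} {c : X ⟶ Z} {d : Z ⟶ W}
    (h : a ≫ b = c ≫ d) (n : ℤ) (x : H.obj (X⟦n⟧)) :
    H.map (b⟦n⟧') (H.map (a⟦n⟧') x) = H.map (d⟦n⟧') (H.map (c⟦n⟧') x) := by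
  have h1 : H.map (a⟦n⟧') ≫ H.map (b⟦n⟧') = H.map (c⟦n⟧') ≫ H.map (d⟦n⟧') := by
    rw [← Functor.map_comp, ← Functor.map_comp, h, Functor.map_comp, Functor.map_comp]
  exact LinearMap.congr_fun (congrArg ModuleCat.Hom.hom h1) x

section

variable {X Y Z X' Y' Z' : C} {f : X ⟶ Y} {g : Y ⟶ Z} {h : Z ⟶ X⟦(1 : ℤ)⟧}
  (hT : Triangle.mk f g h ∈ distTriang C)
  {f' : X' ⟶ Y'} {g' : Y' ⟶ Z'} {h' : Z' ⟶ X'⟦(1 : ℤ)⟧}
  (hT' : Triangle.mk f' g' h' ∈ distTriang C)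
  {x : X' ⟶ X} {y : Y' ⟶ Y} {z : Z' ⟶ Z} (c1 : f' ≫ y = x ≫ f) (c2 : g' ≫ z = y ≫ g)
  (c3 : h' ≫ x⟦(1 : ℤ)⟧' = z ≫ h)

include hT hT' c1 c2 c3

lemma four_epi (n m : ℤ) (hn : n + 1 = m) (hx : Function.Surjective (H.map (x⟦n⟧')))
    (hx' : Function.Injective (H.map (x⟦m⟧')))
    (hz : ∀ c : H.obj (Z⟦n⟧), dlt H h n m hn c = 0 → ∃ u, H.map (z⟦n⟧') u = c) :
    Function.Surjective (H.map (y⟦n⟧')) := by
  intro b
  obtain ⟨u, hu⟩ := hz (H.map (g⟦n⟧') b) (cp23 H hT n m hn b)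
  have h1 : dlt H h' n m hn u = 0 := by
    apply hx'
    have h2 := LinearMap.congr_fun (congrArg ModuleCat.Hom.hom (dlt_nat H c3 n m hn)) u
    have h3 : dlt H h n m hn (H.map (z⟦n⟧') u) = H.map (x⟦m⟧') (dlt H h' n m hn u) := h2
    rw [← h3, hu, cp23 H hT, map_zero]
  obtain ⟨b', hb'⟩ := ex3 H hT' n m hn u h1
  have h4 : H.map (g⟦n⟧') (b - H.map (y⟦n⟧') b') = 0 := by
    rw [map_sub, ← map_nat H c2, hb', hu, sub_self]
  obtain ⟨a, ha⟩ := ex2 H hT n _ h4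
  obtain ⟨a', ha'⟩ := hx a
  refine ⟨b' + H.map (f'⟦n⟧') a', ?_⟩
  rw [map_add, map_nat H c1, ha', ha]
  abel

lemma four_mono (n m : ℤ) (hn : n + 1 = m) (hz : Function.Injective (H.map (z⟦m⟧')))
    (hx : Function.Injective (H.map (x⟦m⟧'))) (hz' : Function.Surjective (H.map (z⟦n⟧'))) :
    Function.Injective (H.map (y⟦m⟧')) := by
  rw [injective_iff_map_eq_zero]
  intro b hb
  have h1 : H.map (g'⟦m⟧') b = 0 := by
    apply hz
    rw [map_nat H c2, hb, map_zero, map_zero]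
  obtain ⟨a, ha⟩ := ex2 H hT' m b h1
  have h2 : H.map (f⟦m⟧') (H.map (x⟦m⟧') a) = 0 := by
    rw [← map_nat H c1, ha, hb]
  obtain ⟨c, hc⟩ := ex1 H hT n m hn _ h2
  obtain ⟨c', hc'⟩ := hz' c
  have h3 : dlt H h' n m hn c' = a := by
    apply hx
    have h4 := LinearMap.congr_fun (congrArg ModuleCat.Hom.hom (dlt_nat H c3 n m hn)) c'
    have h5 : dlt H h n m hn (H.map (z⟦n⟧') c') = H.map (x⟦m⟧') (dlt H h' n m hn c') := h4
    rw [← h5, hc', hc]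
  rw [← ha, ← h3, cp31 H hT']

end

/-- Vanishing of the cohomology of a cone. -/
lemma cone_zero {X Y Z : C} {f : X ⟶ Y} {g : Y ⟶ Z} {h : Z ⟶ X⟦(1 : ℤ)⟧}
    (hT : Triangle.mk f g h ∈ distTriang C) (n m : ℤ) (hn : n + 1 = m)
    (h1 : Function.Surjective (H.map (f⟦n⟧'))) (h2 : Function.Injective (H.map (f⟦m⟧'))) :
    IsZero (H.obj (Z⟦n⟧)) := by
  rw [ModuleCat.isZero_iff_subsingleton]
  refine ⟨fun a b => ?_⟩
  have key : ∀ c : H.obj (Z⟦n⟧), c = 0 := fun c => by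
    have h3 : dlt H h n m hn c = 0 := by
      apply h2
      rw [cp31 H hT, map_zero]
    obtain ⟨b, rfl⟩ := ex3 H hT n m hn c h3
    obtain ⟨a, rfl⟩ := h1 b
    exact cp12 H hT n a
  rw [key a, key b]

end

end Pool.Agent.X307.MT
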