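import Pool.Agent.Y116.MT.Semi

/-!
# Semisimplicity of central elements of an algebra with a non-degenerate trace form
-/

set_option autoImplicit false

open Polynomial

namespace Pool.Agent.X307.MT

open Pool.Agent.Y116.MT

section

variable {A : Type*} [Ring A] [Algebra ℚ A] {E : Type*} [Field E] [Algebra ℚ E]
  {M : Type*} [AddCommGroup M] [Module E M] [Module.Finite E M]
  (ρ : A →+* Module.End E M) (τ : A →ₗ[ℚ] ℚ)
  (hτ : ∀ a, LinearMap.trace E M (ρ a) = algebraMap ℚ E (τ a))
  (hnd : ∀ a, a ≠ 0 → ∃ b, τ (a * b) ≠ 0)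

include hτ hnd

theorem central_semisimple (z : A) (hz : ∀ a, z * a = a * z) : (ρ z).IsSemisimple := by
  have h1 : Module.Finite ℚ A := finite_of_trace ρ τ hτ hnd
  have hint : IsIntegral ℚ z := Algebra.IsIntegral.isIntegral z
  have hcomm : ∀ (p : ℚ[X]) (a : A), aeval z p * a = a * aeval z p := by
    intro p a
    induction p using Polynomial.induction_on' with
    | add p q hp hq => rw [map_add, add_mul, mul_add, hp, hq]
    | monomial n q =>
      rw [aeval_monomial]
      have h2 : ∀ n : ℕ, z ^ n * a = a * z ^ n := fun n => by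
        induction n with
        | zero => simp
        | succ n ih => rw [pow_succ, mul_assoc, hz, ← mul_assoc, ih, mul_assoc]
      rw [mul_assoc, h2, ← mul_assoc, Algebra.commutes, mul_assoc]
  have hsq : Squarefree (minpoly ℚ z) := by
    intro q hq
    by_contra hu
    obtain ⟨r, hr⟩ := hq
    have hp0 : minpoly ℚ z ≠ 0 := minpoly.ne_zero hint
    have hq0 : q ≠ 0 := by
      rintro rfl
      exact hp0 (by rw [hr]; simp)
    have hr0 : r ≠ 0 := by
      rintro rfl
      exact hp0 (by rw [hr]; simp)
    have h2 : aeval z (q * r) ≠ 0 := by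
      intro h0
      have h3 := minpoly.dvd ℚ z h0
      have h4 := Polynomial.natDegree_le_of_dvd h3 (mul_ne_zero hq0 hr0)
      rw [hr, natDegree_mul (mul_ne_zero hq0 hq0) hr0, natDegree_mul hq0 hq0,
        natDegree_mul hq0 hr0] at h4
      have h5 : q.natDegree = 0 := by omega
      apply hu
      rw [Polynomial.isUnit_iff]
      refine ⟨q.coeff 0, ?_, (eq_C_of_natDegree_eq_zero h5).symm⟩
      rw [isUnit_iff_ne_zero]
      intro h6
      apply hq0
      rw [eq_C_of_natDegree_eq_zero h5, h6, C_0]
    apply h2
    obtain ⟨b, hb⟩ := regular_of_trace ρ τ hτ hnd (aeval z (q * r))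
    have h3 : aeval z (q * r) * aeval z (q * r) = 0 := by
      rw [← map_mul, show q * r * (q * r) = (q * q * r) * r by ring, ← hr, map_mul,
        minpoly.aeval, zero_mul]
    have h5 : aeval z (q * r) * b * aeval z (q * r) = 0 := by
      rw [hcomm, mul_assoc, h3, mul_zero]
    rw [← hb, h5]
  have hsep : (minpoly ℚ z).Separable := PerfectField.separable_iff_squarefree.2 hsq
  refine Module.End.isSemisimple_of_squarefree_aeval_eq_zero
    (p := (minpoly ℚ z).map (algebraMap ℚ E)) (hsep.map).squarefree ?_
  have h2 : (algebraMap E (Module.End E M)).comp (algebraMap ℚ E) =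
      ρ.comp (algebraMap ℚ A) := RingHom.ext_rat _ _
  rw [aeval_def, eval₂_map, h2, ← hom_eval₂, ← aeval_def, minpoly.aeval, map_zero]

end

lemma aeval_comm {E : Type*} [Field E] {V W : Type*} [AddCommGroup V] [Module E V]
    [AddCommGroup W] [Module E W] (j : V →ₗ[E] W) (f : Module.End E V) (g : Module.End E W)
    (h : ∀ v, j (f v) = g (j v)) (p : E[X]) (v : V) : j (aeval f p v) = aeval g p (j v) := by
  induction p using Polynomial.induction_on' with
  | add p q hp hq => simp [hp, hq]
  | monomial n q =>
    have h2 : ∀ n : ℕ, j ((f ^ n) v) = (g ^ n) (j v) := fun n => by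
      induction n with
      | zero => simp
      | succ n ih => rw [pow_succ', pow_succ', Module.End.mul_apply, Module.End.mul_apply, h, ih]
    simp [aeval_monomial, h2]

lemma semisimple_of_injective {E : Type*} [Field E] {V W : Type*} [AddCommGroup V] [Module E V]
    [AddCommGroup W] [Module E W] [FiniteDimensional E W] (j : V →ₗ[E] W)
    (hj : Function.Injective j) (f : Module.End E V) (g : Module.End E W)
    (h : ∀ v, j (f v) = g (j v)) (hg : g.IsSemisimple) : f.IsSemisimple := by
  refine Module.End.isSemisimple_of_squarefree_aeval_eq_zero (p := minpoly E g)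
    hg.minpoly_squarefree ?_
  ext v
  apply hj
  rw [aeval_comm j f g h, minpoly.aeval]
  simp

end Pool.Agent.X307.MT
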