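import Pool.Agent.X307.MT.BC
import Pool.Agent.X307.MT.SsAlg

/-!
# Semisimplicity of natural endomorphisms on the cohomology of Chow motives
-/

set_option autoImplicit false
set_option linter.unusedSectionVars false
set_option linter.unusedSimpArgs false
set_option backward.isDefEq.respectTransparency false
set_option backward.defeqAttrib.useBackward true

open CategoryTheory Limits MonoidalCategory Pretriangulated Triangulated ZeroObject

namespace Pool.Agent.X307.MT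

open Pool.Agent.Y116.MT

universe v u w

open Functor.LaxMonoidal

section

variable {C : Type u} [Category.{v} C] [Preadditive C] [HasZeroObject C] [HasShift C ℤ]
  [∀ n : ℤ, (shiftFunctor C n).Additive] [Pretriangulated C] [MonoidalCategory C]
  [SymmetricCategory C] [TensorTriangulated C] [RightRigidCategory C]

/-- The object of internal endomorphisms does not change under shifts. -/
noncomputable def endIso (M : C) (n : ℤ) : (M⟦n⟧ ⊗ (M⟦n⟧)ᘁ) ≅ M ⊗ Mᘁ :=
  Yoneda.ext _ _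
    (fun {W} f => tensorRightHomEquiv W M Mᘁ M ((shiftFunctor C n).preimage
      ((rShift W M n).inv ≫ (tensorRightHomEquiv W (M⟦n⟧) (M⟦n⟧)ᘁ (M⟦n⟧)).symm f)))
    (fun {W} f => tensorRightHomEquiv W (M⟦n⟧) (M⟦n⟧)ᘁ (M⟦n⟧)
      ((rShift W M n).hom ≫ ((tensorRightHomEquiv W M Mᘁ M).symm f)⟦n⟧'))
    (fun {W} f => by simp)
    (fun {W} f => by simp)
    (fun {W W'} h f => by
      rw [tensorRightHomEquiv_symm_naturality]
      have h1 : (rShift W' M n).inv ≫ h ▷ (M⟦n⟧) = (h ▷ M)⟦n⟧' ≫ (rShift W M n).inv := by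
        rw [Iso.inv_comp_eq, ← Category.assoc, Iso.eq_comp_inv]
        exact rShift_natural_left h M n
      rw [reassoc_of% h1, Functor.preimage_comp, Functor.preimage_map]
      apply (tensorRightHomEquiv W' M Mᘁ M).symm.injective
      rw [Equiv.symm_apply_apply, tensorRightHomEquiv_symm_naturality,
        Equiv.symm_apply_apply])

end

section

variable {C : Type u} [Category.{v} C] [Preadditive C] [HasZeroObject C] [HasShift C ℤ]
  [∀ n : ℤ, (shiftFunctor C n).Additive] [Pretriangulated C] [MonoidalCategory C]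
  [SymmetricCategory C] [TensorTriangulated C] [RightRigidCategory C] [MonoidalPreadditive C]

/-- The trace of the shift of an endomorphism. -/
noncomputable def trn (M : C) (n : ℤ) : (M ⟶ M) →+ (𝟙_ C ⟶ 𝟙_ C) where
  toFun a := tr (a⟦n⟧')
  map_zero' := by
    have h0 : (0 : M⟦n⟧ ⟶ M⟦n⟧) ▷ (M⟦n⟧)ᘁ = 0 := (tensorRight _).map_zero _ _
    rw [Functor.map_zero, tr, h0, zero_comp, comp_zero]
  map_add' a b := by
    have h0 : ∀ x y : M⟦n⟧ ⟶ M⟦n⟧, (x + y) ▷ (M⟦n⟧)ᘁ = x ▷ (M⟦n⟧)ᘁ + y ▷ (M⟦n⟧)ᘁ :=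
      fun x y => (tensorRight (M⟦n⟧)ᘁ).map_add
    rw [Functor.map_add, tr, h0, Preadditive.add_comp, Preadditive.comp_add]
    rfl

lemma hid_of_hEnd [Linear ℚ C] (hEnd : ∀ e : 𝟙_ C ⟶ 𝟙_ C, ∃ q : ℚ, e = q • 𝟙 (𝟙_ C))
    (e : 𝟙_ C ⟶ 𝟙_ C) (he : e ≫ e = e) : e = 0 ∨ e = 𝟙 _ := by
  obtain ⟨q, rfl⟩ := hEnd e
  rw [Linear.smul_comp, Category.id_comp, smul_smul] at he
  have h1 : (q * q - q) • 𝟙 (𝟙_ C) = 0 := by rw [sub_smul, he, sub_self]
  rcases smul_eq_zero.1 h1 with h2 | h2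
  · have h3 : q * (q - 1) = 0 := by linarith
    rcases mul_eq_zero.1 h3 with h4 | h4
    · left; rw [h4, zero_smul]
    · right; rw [show q = 1 by linarith, one_smul]
  · left; rw [h2, smul_zero]

variable {Λ : Type*} {E : Λ → Type w} [∀ l, Field (E l)] [∀ l, CharZero (E l)]
  {R : ∀ l, Realisation C (E l)}
  {t : TStructure C} [IsTriangulated C] [Linear ℚ C]
  (hm : IsMotivic t R) (hEnd : ∀ e : 𝟙_ C ⟶ 𝟙_ C, ∃ q : ℚ, e = q • 𝟙 (𝟙_ C))

/-- The action on the cohomology of degree `n`. -/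
noncomputable def rhoH {E' : Type w} [Field E'] (S : Realisation C E') (M : C) (n : ℤ) :
    End M →+* Module.End E' (S.H.obj (M⟦n⟧)) where
  toFun a := (S.H.map ((show M ⟶ M from a)⟦n⟧')).hom
  map_one' := by
    change (S.H.map ((𝟙 M)⟦n⟧')).hom = _
    rw [Hid]
    rfl
  map_mul' a b := by
    change (S.H.map (((show M ⟶ M from b) ≫ (show M ⟶ M from a))⟦n⟧')).hom = _
    rw [Hcomp]
    rfl
  map_zero' := by
    change (S.H.map ((0 : M ⟶ M)⟦n⟧')).hom = _
    rw [Functor.map_zero, Functor.map_zero]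
    rfl
  map_add' a b := by
    change (S.H.map (((show M ⟶ M from a) + (show M ⟶ M from b))⟦n⟧')).hom = _
    rw [Functor.map_add, Functor.map_add]
    rfl

include hm hEnd

/-- **Semisimplicity** of central endomorphisms of the pieces. -/
theorem piece_semisimple (l : Λ) {Chow : ObjectProperty C} (hC : IsChowClass Chow) {M : C} {n : ℤ}
    (hM : Chow M) (hM1 : t.IsLE M n) (hM2 : t.IsGE M n) (z : M ⟶ M)
    (hz : ∀ a : M ⟶ M, z ≫ a = a ≫ z) :
    Module.End.IsSemisimple ((R l).H.map (z⟦n⟧')).hom := by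
  have hid := hid_of_hEnd hEnd
  have hu : ¬ IsZero (𝟙_ C) := not_isZero_unit (R l)
  have h1 : (𝟙 (𝟙_ C)) ≠ 0 := fun h => hu ((IsZero.iff_id_eq_zero _).2 h)
  let κ : ℚ ≃ₗ[ℚ] (𝟙_ C ⟶ 𝟙_ C) := LinearEquiv.ofBijective
    (LinearMap.toSpanSingleton ℚ _ (𝟙 (𝟙_ C)))
    ⟨(injective_iff_map_eq_zero _).2 fun q hq => (smul_eq_zero.1 hq).resolve_right h1,
      fun e => by obtain ⟨q, hq⟩ := hEnd e; exact ⟨q, hq.symm⟩⟩
  have hκ : ∀ q : ℚ, κ q = q • 𝟙 (𝟙_ C) := fun q => rfl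
  let τ : End M →ₗ[ℚ] ℚ := κ.symm.toLinearMap ∘ₗ (trn M n).toRatLinearMap
  have hτ0 : ∀ a : M ⟶ M, tr (a⟦n⟧') = (τ a) • 𝟙 (𝟙_ C) := fun a => by
    rw [← hκ]
    change _ = κ (κ.symm (trn M n a))
    rw [LinearEquiv.apply_symm_apply]
    rfl
  have hN : Hrt t (M⟦n⟧) := ⟨t.isLE_shift M n n 0, t.isGE_shift M n n 0⟩
  have hdeg : (R l).Deg (M⟦n⟧) 0 := (texact hm l).deg hN
  let g : ℚ →+ E l :=
    { toFun := fun q => (ε (R l).H ≫ (R l).H.map (q • 𝟙 (𝟙_ C)) ≫ inv (ε (R l).H)).hom (1 : E l)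
      map_zero' := by
        rw [zero_smul, Functor.map_zero, zero_comp, comp_zero]
        rfl
      map_add' := fun a b => by
        rw [add_smul, Functor.map_add, Preadditive.add_comp, Preadditive.comp_add]
        rfl }
  have hg1 : g 1 = 1 := by
    change (ε (R l).H ≫ (R l).H.map ((1 : ℚ) • 𝟙 (𝟙_ C)) ≫ inv (ε (R l).H)).hom (1 : E l) = 1
    rw [one_smul, CategoryTheory.Functor.map_id, Category.id_comp, IsIso.hom_inv_id]
    rfl
  have hg : ∀ q : ℚ, g q = algebraMap ℚ (E l) q := fun q => by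
    have h2 : g (q • (1 : ℚ)) = q • g 1 := map_rat_smul g q 1
    rw [smul_eq_mul, mul_one, hg1] at h2
    rw [h2, Algebra.smul_def, mul_one]
  have hτ : ∀ a : End M, LinearMap.trace (E l) _ (rhoH (R l) M n a) =
      algebraMap ℚ (E l) (τ a) := fun a => by
    rw [← hg]
    change _ = (ε (R l).H ≫ (R l).H.map ((τ a) • 𝟙 (𝟙_ C)) ≫ inv (ε (R l).H)).hom (1 : E l)
    rw [← hτ0]
    exact (H_trace hdeg _).symm
  have hsym : ∀ a b : End M, τ (a * b) = τ (b * a) := fun a b => by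
    apply (algebraMap ℚ (E l)).injective
    rw [← hτ, ← hτ, RingHom.map_mul, RingHom.map_mul, LinearMap.trace_mul_comm]
  have hnd : ∀ a : End M, a ≠ 0 → ∃ b, τ (a * b) ≠ 0 := by
    intro a ha
    have h2 : nm ((show M ⟶ M from a)⟦n⟧') ≠ 0 := fun h3 => ha
      ((shiftFunctor C n).map_injective ((eq_zero_of_nm _ h3).trans
        ((shiftFunctor C n).map_zero _ _).symm))
    have hQ : Chow (M⟦n⟧ ⊗ (M⟦n⟧)ᘁ) := hC.retract _ _ (endIso M n).hom (endIso M n).inv
      (endIso M n).hom_inv_id (hC.tensor _ _ hM (hC.dual _ hM))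
    have hQh : Hrt t (M⟦n⟧ ⊗ (M⟦n⟧)ᘁ) :=
      (compat hm).hrt hN (dual_hrt (compat hm) (unitHrt hm) hN)
    obtain ⟨r, hr⟩ := heart_pairing (compat hm) (texact hm l) (unitHrt hm) hid hQh Chow hC.unit
      (fun X hX => hC.tensor X _ hX hQ)
      (fun X hX m hm' f => hC.vanish X _ hX hC.unit m hm' f) _ h2
    obtain ⟨b, hb⟩ := exists_tr r
    obtain ⟨b', rfl⟩ := (shiftFunctor C n).map_surjective b
    refine ⟨(show End M from b'), fun h3 => hr ?_⟩
    rw [hb, ← Functor.map_comp]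
    have h4 : τ (show End M from (show M ⟶ M from a) ≫ b') = 0 := by
      rw [hsym] at h3
      exact h3
    rw [hτ0]
    erw [h4]
    rw [zero_smul]
  exact central_semisimple (rhoH (R l) M n) τ hτ hnd (show End M from z) (fun a => (hz a).symm)

/-- **Semisimplicity** of natural endomorphisms on the cohomology of Chow motives. -/
theorem natural_semisimple [Nonempty Λ] {Chow : ObjectProperty C} (hC : IsChowClass Chow) {T : C}
    (hL : HardLefschetz Chow T R) (φ : 𝟭 C ⟶ 𝟭 C) {P : C} (hP : Chow P) (l : Λ) (n : ℤ) :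
    Module.End.IsSemisimple ((R l).H.map ((show P ⟶ P from φ.app P)⟦n⟧')).hom := by
  have hid := hid_of_hEnd hEnd
  have hnat : ∀ {X Y : C} (a : X ⟶ Y), a ≫ (show Y ⟶ Y from φ.app Y) =
      (show X ⟶ X from φ.app X) ≫ a := fun a => φ.naturality a
  obtain ⟨Q, i, r, hir, hQ, hpc⟩ := chow_pieces hm hid hL hP
  obtain ⟨M, a, b, hM1, hM2, hab, hb⟩ := hpc n
  have hMC : Chow M := hC.retract M Q a b hab hQ
  have h1 := piece_semisimple hm hEnd l hC hMC hM1 hM2 (φ.app M) (fun a => (hnat a).symm)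
  refine semisimple_of_injective ((R l).H.map ((i ≫ b)⟦n⟧')).hom ?_ _ _ ?_ h1
  · have h2 : Mono ((R l).H.map ((i ≫ b)⟦n⟧')) := by
      have := hb l
      have h3 : Mono ((R l).H.map (i⟦n⟧')) := by
        have h4 : (R l).H.map (i⟦n⟧') ≫ (R l).H.map (r⟦n⟧') = 𝟙 _ := by
          rw [← Hcomp, hir, Hid]
        exact SplitMono.mono ⟨_, h4⟩
      rw [Hcomp]
      infer_instance
    exact (ModuleCat.mono_iff_injective _).1 h2
  · intro v
    have h3 : (R l).H.map ((show P ⟶ P from φ.app P)⟦n⟧') ≫ (R l).H.map ((i ≫ b)⟦n⟧') =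
        (R l).H.map ((i ≫ b)⟦n⟧') ≫ (R l).H.map ((show M ⟶ M from φ.app M)⟦n⟧') := by
      rw [← Hcomp, ← Hcomp, hnat]
    exact LinearMap.congr_fun (congrArg ModuleCat.Hom.hom h3) v

end

end Pool.Agent.X307.MT
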