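import Pool.Agent.X307.MT.Clos2
import Pool.Agent.X307.MT.Ss
import Pool.Agent.X307.MT.Defs4

/-!
# Over a finite field one prime suffices
-/

set_option autoImplicit false
set_option linter.unusedSectionVars false
set_option linter.unusedSimpArgs false
set_option backward.isDefEq.respectTransparency false
set_option backward.defeqAttrib.useBackward true

open CategoryTheory Limits MonoidalCategory Pretriangulated Triangulated Polynomial ZeroObject

namespace Pool.Agent.X307.MT

open Pool.Agent.Y116.MT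

universe v u w

section

variable {C : Type u} [Category.{v} C] [Preadditive C] [HasZeroObject C] [HasShift C ℤ]
  [∀ n : ℤ, (shiftFunctor C n).Additive] [Pretriangulated C] [MonoidalCategory C]
  [SymmetricCategory C] [TensorTriangulated C] [Linear ℚ C]
  [MonoidalPreadditive C] [RightRigidCategory C]

lemma aeval_rhoH {E' : Type w} [Field E'] [CharZero E'] (S : Realisation C E') (M : C) (j : ℤ)
    (q : ℚ[X]) (z : End M) :
    rhoH S M j (aeval z q) = aeval (rhoH S M j z) (q.map (algebraMap ℚ E')) := by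
  have h2 : (algebraMap E' (Module.End E' (S.H.obj (M⟦j⟧)))).comp (algebraMap ℚ E') =
      (rhoH S M j).comp (algebraMap ℚ (End M)) := RingHom.ext_rat _ _
  rw [aeval_def, aeval_def, eval₂_map, h2, ← hom_eval₂]

variable {Λ : Type*} {E : Λ → Type w} [∀ l, Field (E l)] [∀ l, CharZero (E l)]
  {R : ∀ l, Realisation C (E l)} [IsTriangulated C]
  {t : TStructure C} {l₀ : Λ} (hm : IsMotivic t (fun _ : Unit => R l₀))
  (hid : ∀ e : 𝟙_ C ⟶ 𝟙_ C, e ≫ e = e → e = 0 ∨ e = 𝟙 _)

include hm hid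

/-- A Chow motive that is concentrated in degree `n` for the t-structure is concentrated in degree
`n` for all realisations. -/
lemma pure_n {Chow : ObjectProperty C} {φ : 𝟭 C ⟶ 𝟭 C} (hφ : FrobeniusWeights Chow R φ) {M : C}
    (hM : Chow M) {n : ℤ} (h1 : t.IsLE M n) (h2 : t.IsGE M n) (l : Λ) (j : ℤ) (hj : j ≠ n) :
    IsZero ((R l).H.obj (M⟦j⟧)) := by
  obtain ⟨p, hp, hpz⟩ := hφ M hM
  let z : End M := φ.app M
  have h3 : rhoH (R l₀) M n (aeval z (p n)) = 0 := by
    rw [aeval_rhoH]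
    exact hpz l₀ n
  have h4 : aeval z (p n) = 0 := by
    have h5 : (show M ⟶ M from aeval z (p n))⟦n⟧' = 0 := by
      refine faithfulHrt hm hid () ⟨t.isLE_shift M n n 0, t.isGE_shift M n n 0⟩
        ⟨t.isLE_shift M n n 0, t.isGE_shift M n n 0⟩ _ ?_
      exact ModuleCat.hom_ext h3
    exact (shiftFunctor C n).map_injective (h5.trans (Functor.map_zero _ _ _).symm)
  have h5 : aeval (rhoH (R l) M j z) ((p n).map (algebraMap ℚ (E l))) = 0 := by
    rw [← aeval_rhoH, h4, map_zero]
  have h6 : aeval (rhoH (R l) M j z) ((p j).map (algebraMap ℚ (E l))) = 0 := hpz l j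
  obtain ⟨a, b, hab⟩ := hp j n hj
  have h7 : (1 : Module.End (E l) ((R l).H.obj (M⟦j⟧))) = 0 := by
    have h8 := congrArg (fun q : ℚ[X] => aeval (rhoH (R l) M j z)
      (q.map (algebraMap ℚ (E l)))) hab
    simp only [Polynomial.map_add, Polynomial.map_mul, map_add, map_mul, h5, h6, mul_zero,
      add_zero, Polynomial.map_one, map_one] at h8
    exact h8.symm
  rw [ModuleCat.isZero_iff_subsingleton]
  refine ⟨fun x y => ?_⟩
  have h9 : ∀ x : (R l).H.obj (M⟦j⟧), x = 0 := fun x => LinearMap.congr_fun h7 x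
  rw [h9 x, h9 y]

omit [Linear ℚ C] hm hid [∀ l, CharZero (E l)] [MonoidalPreadditive C]
  [RightRigidCategory C] [IsTriangulated C] in
lemma tr_pure {M : C} {n : ℤ} (h1 : RLE R n M) (h2 : RGE R n M) (m : ℤ) : TrAt R m M := by
  have h0 : ∀ (l : Λ) (i : ℤ), IsZero ((R l).H.obj ((0 : C)⟦i⟧)) := fun l i =>
    (R l).H.map_isZero (isZero_shift (isZero_zero C) i)
  by_cases h : n ≤ m
  · exact ⟨M, 0, 𝟙 M, 0, 0, contractible_distinguished M, h1.mono h, fun l i _ => h0 l i⟩
  · exact ⟨0, M, 0, 𝟙 M, 0, contractible_distinguished₁ M, fun l i _ => h0 l i,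
      h2.mono (by omega)⟩

/-- Chow motives with pieces have truncations for all realisations. -/
lemma tr_chow {Chow : ObjectProperty C}
    (hret : ∀ (X Y : C) (i : X ⟶ Y) (r : Y ⟶ X), i ≫ r = 𝟙 X → Chow Y → Chow X)
    {φ : 𝟭 C ⟶ 𝟭 C} (hφ : FrobeniusWeights Chow R φ) (a : ℤ) (m : ℕ) : ∀ X : C, Chow X →
    (∀ n : ℤ, Piece t (fun _ : Unit => R l₀) X n) → t.IsGE X a → t.IsLE X (a + m) →
      ∀ n : ℤ, TrAt R n X := by
  induction m with
  | zero =>
    intro X hX _ h1 h2 n
    have h2' : t.IsLE X a := by simpa using h2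
    exact tr_pure (n := a) (fun l i hi => pure_n hm hid hφ hX h2' h1 l i (by omega))
      (fun l i hi => pure_n hm hid hφ hX h2' h1 l i (by omega)) n
  | succ m ih =>
    intro X hX hpc h1 h2 n
    obtain ⟨M, i, r, hM1, hM2, hir, hr⟩ := hpc (a + (m + 1 : ℕ))
    have hMC : Chow M := hret M X i r hir hX
    obtain ⟨X', w, h, hT⟩ := distinguished_cocone_triangle₁ r
    have hh : h = 0 := by
      rw [← Category.id_comp h, ← hir, Category.assoc, comp23 hT, Limits.comp_zero]
    obtain ⟨ρ', hρ⟩ := split3 hT hh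
    have hXC : Chow X' := hret X' X w ρ' hρ hX
    obtain ⟨s', hs'⟩ := ye2 hT (𝟙 X - ρ' ≫ w) (by
      rw [Preadditive.comp_sub, Category.comp_id, ← Category.assoc, hρ, Category.id_comp,
        sub_self])
    have hw0 : (R l₀).H.map (w⟦a + (m + 1 : ℕ)⟧') = 0 := by
      have := hr ()
      rw [← cancel_mono ((R l₀).H.map (r⟦a + (m + 1 : ℕ)⟧')), ← Hcomp, comp12 hT,
        Functor.map_zero, Functor.map_zero, Limits.zero_comp]
    have hX'0 : IsZero ((R l₀).H.obj (X'⟦a + (m + 1 : ℕ)⟧)) := by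
      rw [IsZero.iff_id_eq_zero, ← Hid, ← hρ, Hcomp, hw0, Limits.zero_comp]
    have g1 : t.IsGE X' a := isGE_retract h1 w ρ' hρ
    have g2 : t.IsLE X' (a + m) := by
      refine ⟨(le_iff hm hid () _ X').2 fun j hj => ?_⟩
      by_cases hj' : j = a + (m + 1 : ℕ)
      · subst hj'; exact hX'0
      · have h3 : t.IsLE X' (a + (m + 1 : ℕ)) := isLE_retract h2 w ρ' hρ
        exact (texact hm ()).isLE h3 j (by push_cast at *; omega)
    have hpc' : ∀ k : ℤ, Piece t (fun _ : Unit => R l₀) X' k := by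
      intro k
      by_cases hk : k < a + (m + 1 : ℕ)
      · obtain ⟨N, α, β, hN1, hN2, hαβ, hβ⟩ := hpc k
        have h3 : α ≫ r = 0 := t.zero_of_isLE_of_isGE _ k (a + (m + 1 : ℕ)) hk hN1 hM2
        refine ⟨N, α ≫ ρ', w ≫ β, hN1, hN2, ?_, fun _ => ?_⟩
        · have h4 : (α ≫ ρ') ≫ w = α := by
            have h5 : α ≫ (𝟙 X - ρ' ≫ w) = 0 := by
              rw [hs', ← Category.assoc, h3, Limits.zero_comp]
            rw [Preadditive.comp_sub, Category.comp_id, sub_eq_zero] at h5
            rw [Category.assoc, ← h5]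
          rw [← Category.assoc, h4, hαβ]
        · have h4 := hβ ()
          have h5 : IsIso ((R l₀).H.map (w⟦k⟧')) :=
            Hiso1 (R l₀) hT k ((texact hm ()).isGE hM2 _ (by omega))
              ((texact hm ()).isGE hM2 _ hk)
          rw [Hcomp]
          infer_instance
      · refine ⟨0, 0, 0, zero_LE t (isZero_zero C) k, zero_GE t (isZero_zero C) k,
          (isZero_zero C).eq_of_src _ _, fun _ => isIso_of_zeros _ ?_ ?_⟩
        · exact (texact hm ()).isLE g2 k (by push_cast at *; omega)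
        · exact (R l₀).H.map_isZero (isZero_shift (isZero_zero C) k)
    refine tr_ext hm hid hT (ih X' hXC hpc' g1 g2) (fun k => ?_) n
    exact tr_pure (n := a + (m + 1 : ℕ))
      (fun l i hi => pure_n hm hid hφ hMC hM1 hM2 l i (by omega))
      (fun l i hi => pure_n hm hid hφ hMC hM1 hM2 l i (by omega)) k

/-- **One prime suffices.** -/
theorem one_prime {Chow : ObjectProperty C} (hC : IsChowClass Chow) {T : C}
    (hL : HardLefschetz Chow T R) {φ : 𝟭 C ⟶ 𝟭 C} (hφ : FrobeniusWeights Chow R φ)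
    (hgen : ∀ X : C, Generated Chow X) : IsMotivic t R := by
  have hL' : HardLefschetz Chow T (fun _ : Unit => R l₀) :=
    ⟨hL.invertible, fun _ => hL.degree l₀, fun P hP => by
      obtain ⟨Q, i, r, e, h1, h2, h3⟩ := hL.lefschetz P hP
      refine ⟨Q, i, r, e, h1, h2, fun k => ?_⟩
      obtain ⟨L, hL⟩ := h3 k
      exact ⟨L, fun _ => hL l₀⟩⟩
  have key : ∀ X : C, ∀ n : ℤ, TrAt R n X := by
    intro X
    induction hgen X with
    | of X hX =>
      obtain ⟨Q, i, r, hir, hQ, hpc⟩ := chow_pieces hm hid hL' hX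
      obtain ⟨N, h1, h2⟩ := bdd hm hid () Q
      have h1' : t.IsLE Q (-(N : ℤ) + (2 * N : ℕ)) := by
        have e : -(N : ℤ) + (2 * N : ℕ) = N := by push_cast; ring
        rw [e]
        exact ⟨h1⟩
      exact tr_retract hm hid i r hir
        (tr_chow hm hid hC.retract hφ (-(N : ℤ)) (2 * N) Q hQ hpc ⟨h2⟩ h1')
    | shift X n _ ih => exact tr_shift ih n
    | ext X Y Z f g h hT _ _ ih1 ih2 => exact tr_ext hm hid hT ih1 ih2
    | retract X Y i r hir _ ih => exact tr_retract hm hid i r hir ih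
  have hd : Detects R := fun X hX => isZero_of_R hm hid () (hX l₀)
  have ht : HasTruncations R := fun X => key X 0
  have hm' := tOf_motivic hd ht
  have e1 : ∀ X, t.le 0 X → RLE R 0 X := fun X hX =>
    (le_iff hm' hid l₀ 0 X).2 ((le_iff hm hid () 0 X).1 hX)
  have e2 : ∀ X, t.ge 0 X → RGE R 0 X := fun X hX =>
    (ge_iff hm' hid l₀ 0 X).2 ((ge_iff hm hid () 0 X).1 hX)
  exact ⟨hm.nondeg_le, hm.nondeg_ge, hm.tensor_le, hm.tensor_ge,
    fun l X hX i hi => e1 X hX l i hi, fun l X hX i hi => e2 X hX l i hi⟩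

end

end Pool.Agent.X307.MT
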